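import Mathlib

/-!
# Polynomials as polynomials in one of the variables
-/

set_option autoImplicit false

namespace Pool.Agent.TH61.TRI

open MvPolynomial

theorem decomp {N : ℕ} {K : Type} [Field K] (P : MvPolynomial (Fin N) K) (i : Fin N)
    (hP : P ≠ 0) :
    ∃ c : ℕ → MvPolynomial (Fin N) K,
      P = ∑ k ∈ Finset.range (degreeOf i P + 1), c k * X i ^ k ∧
      (∀ k, ∀ j ∈ (c k).vars, j ∈ P.vars ∧ j ≠ i) ∧ c (degreeOf i P) ≠ 0 := by
  classical
  refine ⟨fun k => ∑ m ∈ P.support.filter (fun m => m i = k), monomial (m.erase i) (P.coeff m),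
    ?_, ?_, ?_⟩
  · have h1 : ∀ m ∈ P.support, m i ∈ Finset.range (degreeOf i P + 1) := by
      intro m hm
      rw [Finset.mem_range, Nat.lt_succ_iff, degreeOf_eq_sup]
      exact Finset.le_sup (f := fun m => m i) hm
    have h2 : ∑ k ∈ Finset.range (degreeOf i P + 1),
        (∑ m ∈ P.support.filter (fun m => m i = k), monomial (m.erase i) (P.coeff m)) * X i ^ k =
        ∑ k ∈ Finset.range (degreeOf i P + 1),
          ∑ m ∈ P.support.filter (fun m => m i = k), monomial m (P.coeff m) := by
      refine Finset.sum_congr rfl fun k _ => ?_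
      rw [Finset.sum_mul]
      refine Finset.sum_congr rfl fun m hm => ?_
      have h3 := (Finset.mem_filter.1 hm).2
      rw [X_pow_eq_monomial, monomial_mul, mul_one, ← h3, Finsupp.erase_add_single]
    rw [h2, Finset.sum_fiberwise_of_maps_to h1]
    exact (P.support_sum_monomial_coeff).symm
  · intro k j hj
    have h1 := vars_sum_subset _ _ hj
    obtain ⟨m, hm, h2⟩ := Finset.mem_biUnion.1 h1
    have hms := (Finset.mem_filter.1 hm).1
    rw [vars_monomial (mem_support_iff.1 hms), Finsupp.support_erase, Finset.mem_erase] at h2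
    exact ⟨(mem_vars_iff_mem_support j).2 ⟨m, hms, h2.2⟩, h2.1⟩
  · have hne : P.support.Nonempty := by
      rw [Finset.nonempty_iff_ne_empty]
      intro h
      exact hP (support_eq_empty.1 h)
    obtain ⟨m₀, hm₀, h1⟩ := Finset.exists_mem_eq_sup P.support hne (fun m => m i)
    rw [← degreeOf_eq_sup] at h1
    intro h0
    have h2 := congrArg (coeff (m₀.erase i)) h0
    rw [coeff_sum, coeff_zero, Finset.sum_eq_single m₀] at h2
    · rw [coeff_monomial, if_pos rfl] at h2
      exact (mem_support_iff.1 hm₀) h2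
    · intro m hm hmm
      rw [coeff_monomial, if_neg]
      intro h3
      apply hmm
      have h4 := (Finset.mem_filter.1 hm).2
      rw [← Finsupp.erase_add_single i m, ← Finsupp.erase_add_single i m₀, h3, h4, ← h1]
    · intro h3
      exact absurd (Finset.mem_filter.2 ⟨hm₀, h1.symm⟩) h3

end Pool.Agent.TH61.TRI
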