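import Pool.Agent.TH61.TRI.Place

/-!
# Triangular polynomial maps at a good place, near a cycle
-/

set_option autoImplicit false

namespace Pool.Agent.TH61.TRI

open Polynomial Pool.Agent.TH61.PCF

section

variable {K : Type} [Field K] {p : ℕ} [Fact p.Prime] {N : ℕ} (σ : K →+* PadicAlgCl p)

/-- the polynomial of the `i`-th coordinate, general leading coefficient -/
noncomputable def gq {A : Type} [CommRing A] (d : Fin N → ℕ)
    (c : Fin N → ℕ → MvPolynomial (Fin N) A) (i : Fin N) (x : Fin N → A) : A[X] :=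
  gp (fun _ => 0) (fun i => d i + 1) c i x

theorem place2 {d : Fin N → ℕ} {c : Fin N → ℕ → MvPolynomial (Fin N) K}
    (hd : ∀ i, 2 ≤ d i) (hc : ∀ i k, ∀ j ∈ (c i k).vars, i < j) {γ : ℕ → Fin N → K}
    (hγ : ∀ s i, (gq d c i (γ s)).eval (γ s i) = γ (s + 1) i) {M : ℕ}
    (hγM : ∀ s, γ (s + M) = γ s)
    (hci : ∀ i k, k < d i + 1 → ∀ m ∈ (c i k).support,
      ∃ x : ℤ_[p], σ ((c i k).coeff m) = io p x)
    (hγi : ∀ s i, ∃ x : ℤ_[p], σ (γ s i) = io p x)
    (hδ0 : ∀ s i, (derivative (gq d c i (γ s))).eval (γ s i) ≠ 0)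
    (hδ : ∀ s i, ∃ x : ℤ_[p], σ ((derivative (gq d c i (γ s))).eval (γ s i))⁻¹ = io p x)
    (hl0 : ∀ s i, MvPolynomial.eval (γ s) (c i (d i)) ≠ 0)
    (hl : ∀ s i, ∃ x : ℤ_[p], σ (MvPolynomial.eval (γ s) (c i (d i)))⁻¹ = io p x)
    (i : Fin N) {x : Fin N → K}
    (hx : ∀ j, i < j → ∃ y : ℤ_[p], σ (x j - γ 0 j) = io p y ∧ ‖y‖ < 1)
    (hxi : ∃ t : ℤ_[p], σ (x i) * io p t = 1 ∧ ‖t‖ < 1) :
    ∃ u : ℕ → Fin N → ℤ_[p],
      (∀ n j, i < j → σ (orb (fun _ => 0) (fun i => d i + 1) c x (M * n) j) = io p (u n j)) ∧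
      (∀ n m, ‖u (n + 1) - u (m + 1)‖ = ‖u n - u m‖) ∧
      ∀ n, ∃ t : ℤ_[p], σ (orb (fun _ => 0) (fun i => d i + 1) c x n i) * io p t = 1 ∧
        ‖t‖ < (1 / 2 : ℝ) ^ n := by
  classical
  set d' : Fin N → ℕ := fun i => d i + 1 with hd'
  have hc' : ∀ i k, ∃ R : MvPolynomial (Fin N) ℤ_[p], (k < d i + 1 →
      MvPolynomial.map (io p) R = MvPolynomial.map σ (c i k)) ∧ ∀ j ∈ R.vars, i < j := by
    intro i k
    by_cases hk : k < d i + 1
    · obtain ⟨R, hR⟩ := lift_mvn σ (c i k) (hci i k hk)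
      refine ⟨R, fun _ => hR, fun j hj => ?_⟩
      apply hc i k
      rw [← MvPolynomial.vars_map_of_injective _ io_inj, hR,
        MvPolynomial.vars_map_of_injective _ σ.injective] at hj
      exact hj
    · exact ⟨0, fun h => absurd h hk, by simp⟩
  choose c' hcm hcv using hc'
  choose γ' hγ' using hγi
  -- comparison
  have hcmp : ∀ (j : Fin N) (z : Fin N → K) (y : Fin N → ℤ_[p]),
      (∀ l, j < l → σ (z l) = io p (y l)) → ∀ k, k < d j + 1 →
      σ (MvPolynomial.eval z (c j k)) = io p (MvPolynomial.eval y (c' j k)) := by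
    intro j z y hzy k hk
    have e1 : σ (MvPolynomial.eval z (c j k)) =
        MvPolynomial.eval (σ ∘ z) (MvPolynomial.map σ (c j k)) := by
      rw [MvPolynomial.eval_map, ← MvPolynomial.eval₂_comp]
    have e2 : io p (MvPolynomial.eval y (c' j k)) =
        MvPolynomial.eval (io p ∘ y) (MvPolynomial.map (io p) (c' j k)) := by
      rw [MvPolynomial.eval_map, ← MvPolynomial.eval₂_comp]
    rw [e1, e2, hcm j k hk]
    apply eval_congr_vars
    intro l hl
    rw [MvPolynomial.vars_map_of_injective _ σ.injective] at hl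
    exact hzy l (hc j k l hl)
  have hgp : ∀ (j : Fin N) (z : Fin N → K) (y : Fin N → ℤ_[p]),
      (∀ l, j < l → σ (z l) = io p (y l)) →
      (gp (fun _ => 0) d' c j z).map σ = (gp (fun _ => 0) d' c' j y).map (io p) := by
    intro j z y hzy
    unfold gp
    simp only [Polynomial.map_add, Polynomial.map_mul, map_C, Polynomial.map_pow, map_X,
      Polynomial.map_sum, map_zero, zero_mul, zero_add]
    refine Finset.sum_congr rfl fun k hk => ?_
    rw [hcmp j z y hzy k (Finset.mem_range.1 hk)]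
  have hgpe : ∀ (j : Fin N) (z : Fin N → K) (y : Fin N → ℤ_[p]),
      (∀ l, j < l → σ (z l) = io p (y l)) → σ (z j) = io p (y j) →
      σ ((gp (fun _ => 0) d' c j z).eval (z j)) = io p ((gp (fun _ => 0) d' c' j y).eval (y j)) ∧
      σ ((derivative (gp (fun _ => 0) d' c j z)).eval (z j)) =
        io p ((derivative (gp (fun _ => 0) d' c' j y)).eval (y j)) := by
    intro j z y hzy hj
    constructor
    · rw [← eval₂_at_apply, ← eval₂_at_apply, ← eval_map, ← eval_map, hgp j z y hzy, hj]
    · rw [← eval₂_at_apply, ← eval₂_at_apply, ← eval_map, ← eval_map, ← derivative_map,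
        ← derivative_map, hgp j z y hzy, hj]
  have hγstep : ∀ s, step (fun _ => 0) d' c' (γ' s) = γ' (s + 1) := by
    intro s
    funext j
    apply io_inj (p := p)
    rw [← hγ' (s + 1) j, ← hγ s j]
    exact (hgpe j (γ s) (γ' s) (fun l _ => hγ' s l) (hγ' s j)).1.symm
  have hγM' : ∀ s, γ' (s + M) = γ' s := by
    intro s
    funext j
    apply io_inj (p := p)
    rw [← hγ', ← hγ', hγM]
  have hγu : ∀ s j, IsUnit ((derivative (gp (fun _ => 0) d' c' j (γ' s))).eval (γ' s j)) := by
    intro s j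
    exact lift_unit σ (hδ0 s j) (hgpe j (γ s) (γ' s) (fun l _ => hγ' s l) (hγ' s j)).2 (hδ s j)
  have hlu : ∀ s j, IsUnit (MvPolynomial.eval (γ' s) (c' j (d j))) := by
    intro s j
    exact lift_unit σ (hl0 s j) (hcmp j (γ s) (γ' s) (fun l _ => hγ' s l) (d j) (by omega))
      (hl s j)
  -- the orbit over the integers
  choose y₀ hy₀ using fun j => (show ∃ y : ℤ_[p], i < j →
      (σ (x j) = io p y ∧ ‖y - γ' 0 j‖ < 1) from by
    by_cases hj : i < j
    · obtain ⟨y, hy, hy1⟩ := hx j hj
      refine ⟨y + γ' 0 j, fun _ => ⟨?_, by rwa [add_sub_cancel_right]⟩⟩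
      rw [map_add, ← hy, ← hγ' 0 j, map_sub]
      ring
    · exact ⟨0, fun h => absurd h hj⟩)
  set Y := orb (fun _ => 0) d' c' y₀ with hY
  have hYs : ∀ n, Y (n + 1) = step (fun _ => 0) d' c' (Y n) := fun n => rfl
  have hXY : ∀ n j, i < j → σ (orb (fun _ => 0) d' c x n j) = io p (Y n j) := by
    intro n
    induction n with
    | zero => intro j hj; exact (hy₀ j hj).1
    | succ n ih =>
      intro j hj
      exact (hgpe j _ _ (fun l hl => ih l (hj.trans hl)) (ih j hj)).1
  have hYγ : ∀ n, ‖tr i (Y n) - tr i (γ' n)‖ < 1 := by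
    intro n
    induction n with
    | zero =>
      have : ∀ j, ‖(tr i (Y 0) - tr i (γ' 0)) j‖ < 1 := by
        intro j
        rw [Pi.sub_apply]
        by_cases hj : i < j
        · rw [tr_of hj, tr_of hj]
          exact (hy₀ j hj).2
        · rw [tr_not hj, tr_not hj, sub_self, norm_zero]
          exact one_pos
      exact (pi_norm_lt_iff one_pos).2 this
    | succ n ih =>
      rw [hYs, ← hγstep n, iso_step hcv i (fun j _ => hγu n j) ih (by simp)]
      exact ih
  have hγMn : ∀ n s, γ' (M * n + s) = γ' s := by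
    intro n
    induction n with
    | zero => intro s; rw [mul_zero, zero_add]
    | succ n ih =>
      intro s
      have e : M * (n + 1) + s = M * n + (s + M) := by ring
      rw [e, ih, hγM']
  have hisoM : ∀ n m b, ‖tr i (Y (M * n + b)) - tr i (Y (M * m + b))‖ =
      ‖tr i (Y (M * n)) - tr i (Y (M * m))‖ := by
    intro n m b
    induction b with
    | zero => rfl
    | succ b ih =>
      rw [← ih, ← add_assoc, ← add_assoc, hYs, hYs]
      refine iso_step hcv i (fun j _ => hγu b j) ?_ ?_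
      · have := hYγ (M * n + b)
        rwa [hγMn] at this
      · have := hYγ (M * m + b)
        rwa [hγMn] at this
  refine ⟨fun n => tr i (Y (M * n)), fun n j hj => ?_, fun n m => ?_, ?_⟩
  · show σ (orb (fun _ => 0) d' c x (M * n) j) = io p (tr i (Y (M * n)) j)
    rw [tr_of hj]
    exact hXY _ j hj
  · have e : ∀ n, M * (n + 1) = M * n + M := fun n => by ring
    show ‖tr i (Y (M * (n + 1))) - tr i (Y (M * (m + 1)))‖ = _
    rw [e, e]
    exact hisoM n m M
  · have hhalf : ∀ t : ℤ_[p], ‖t‖ < 1 → ‖t‖ ≤ 1 / 2 := by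
      intro t ht
      have h2 : (2 : ℝ) ≤ p := by exact_mod_cast (Fact.out : p.Prime).two_le
      have h3 : ‖t‖ ≤ (p : ℝ)⁻¹ := by
        have := (PadicInt.norm_lt_one_iff_dvd t).1 ht
        obtain ⟨s, rfl⟩ := this
        rw [norm_mul, PadicInt.norm_p]
        exact mul_le_of_le_one_right (by positivity) (PadicInt.norm_le_one _)
      refine h3.trans ?_
      rw [inv_le_comm₀ (by linarith) (by norm_num)]
      norm_num
      exact_mod_cast h2
    intro n
    induction n with
    | zero =>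
      obtain ⟨t, ht, ht1⟩ := hxi
      exact ⟨t, ht, by rw [pow_zero]; exact ht1⟩
    | succ n ih =>
      obtain ⟨t, ht, htn⟩ := ih
      have ht1 : ‖t‖ < 1 := htn.trans_le (pow_le_one₀ (by norm_num) (by norm_num))
      set w : ℤ_[p] := ∑ k ∈ Finset.range (d i + 1),
        MvPolynomial.eval (Y n) (c' i k) * t ^ (d i - k) with hw
      have hlead : IsUnit (MvPolynomial.eval (Y n) (c' i (d i))) :=
        unit_of_near (hlu n i) ((lip_tr (hcv i (d i)) _ _).trans_lt (hYγ n))
      have hwu : IsUnit w := by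
        refine unit_of_near hlead ?_
        rw [hw, Finset.sum_range_succ, Nat.sub_self, pow_zero, mul_one, add_sub_cancel_right]
        refine lt_of_le_of_lt ?_ ht1
        refine Finset.sum_induction _ (fun x => ‖x‖ ≤ ‖t‖) (fun x y => nadd)
          (by simp) fun k hk => ?_
        refine (nmul _ _).trans ?_
        have h1 := Finset.mem_range.1 hk
        obtain ⟨e, he⟩ : ∃ e, d i - k = e + 1 := ⟨d i - k - 1, by omega⟩
        rw [he, pow_succ]
        exact nmul _ _
      have hstep : σ (orb (fun _ => 0) d' c x (n + 1) i) * io p (t ^ d i) = io p w := by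
        have e1 : orb (fun _ => 0) d' c x (n + 1) i =
            (gp (fun _ => 0) d' c i (orb (fun _ => 0) d' c x n)).eval
              (orb (fun _ => 0) d' c x n i) := rfl
        set X₀ := orb (fun _ => 0) d' c x n i with hX₀
        have e2 : (gp (fun _ => 0) d' c i (orb (fun _ => 0) d' c x n)).eval X₀ =
            ∑ k ∈ Finset.range (d i + 1),
              MvPolynomial.eval (orb (fun _ => 0) d' c x n) (c i k) * X₀ ^ k := by
          unfold gp
          rw [C_0, zero_mul, zero_add, eval_finsetSum]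
          refine Finset.sum_congr rfl fun k _ => ?_
          rw [eval_mul, eval_C, eval_pow, eval_X]
        rw [e1, e2, map_sum, hw, map_sum, Finset.sum_mul]
        refine Finset.sum_congr rfl fun k hk => ?_
        have h1 := Finset.mem_range.1 hk
        rw [map_mul, map_mul, hcmp i _ (Y n) (fun l hl => hXY n l hl) k h1, map_pow, map_pow,
          map_pow, mul_assoc]
        congr 1
        have e3 : d i = k + (d i - k) := by omega
        conv_lhs => rw [e3, pow_add, ← mul_assoc, ← mul_pow, ht, one_pow, one_mul]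
      refine ⟨t ^ d i * Ring.inverse w, ?_, ?_⟩
      · rw [map_mul, ← mul_assoc, hstep, ← map_mul, Ring.mul_inverse_cancel _ hwu, map_one]
      · have h1 : ‖t ^ d i * Ring.inverse w‖ ≤ ‖t‖ * ‖t‖ := by
          obtain ⟨e, he⟩ : ∃ e, d i = e + 2 := ⟨d i - 2, by have := hd i; omega⟩
          rw [norm_mul, he, pow_add, norm_mul, sq, norm_mul]
          calc ‖t ^ e‖ * (‖t‖ * ‖t‖) * ‖Ring.inverse w‖ ≤ 1 * (‖t‖ * ‖t‖) * 1 := by
                gcongr
                · exact PadicInt.norm_le_one _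
                · exact PadicInt.norm_le_one _
            _ = _ := by ring
        refine lt_of_le_of_lt h1 ?_
        rw [pow_succ]
        have h2 := hhalf t ht1
        have h3 : (0 : ℝ) < (1 / 2) ^ n := by positivity
        calc ‖t‖ * ‖t‖ ≤ ‖t‖ * (1 / 2) := by gcongr
          _ < (1 / 2) ^ n * (1 / 2) := by
              apply mul_lt_mul_of_pos_right htn (by norm_num)

end

end Pool.Agent.TH61.TRI
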