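import Pool.Agent.TH61.TRI.Per
import Pool.Agent.TH61.TRI.Place2

/-!
# Cycles of triangular polynomial maps that avoid a hypersurface
-/

set_option autoImplicit false

namespace Pool.Agent.TH61.TRI

open Polynomial

variable {K : Type} [Field K]

/-- nonautonomous iterates -/
noncomputable def Hs (h : ℕ → K[X]) : ℕ → K[X]
  | 0 => X
  | s + 1 => (h s).comp (Hs h s)

theorem Hs_deg {h : ℕ → K[X]} (hd : ∀ s, 2 ≤ (h s).natDegree) (s : ℕ) :
    2 ^ s ≤ (Hs h s).natDegree := by
  induction s with
  | zero => simp [Hs]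
  | succ s ih =>
    show _ ≤ ((h s).comp (Hs h s)).natDegree
    rw [natDegree_comp, pow_succ, mul_comm]
    exact Nat.mul_le_mul (hd s) ih

theorem Hs_add {h : ℕ → K[X]} {M : ℕ} (hM : ∀ s, h (s + M) = h s) (t : K) (s : ℕ) :
    (Hs h (M + s)).eval t = (Hs h s).eval ((Hs h M).eval t) := by
  induction s with
  | zero => rw [add_zero]; simp [Hs]
  | succ s ih =>
    show ((h (M + s)).comp (Hs h (M + s))).eval t = ((h s).comp (Hs h s)).eval _
    rw [eval_comp, eval_comp, ih, add_comm M s, hM]

theorem Hs_mul {h : ℕ → K[X]} {M : ℕ} (hM : ∀ s, h (s + M) = h s) (n : ℕ) :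
    ∀ (t : K) (s : ℕ), (Hs h (M * n + s)).eval t =
      (Hs h s).eval ((fun y => (Hs h M).eval y)^[n] t) := by
  induction n with
  | zero => intro t s; rw [mul_zero, zero_add]; rfl
  | succ n ih =>
    intro t s
    have e : M * (n + 1) + s = M + (M * n + s) := by ring
    rw [e, Hs_add hM, ih, Function.iterate_succ_apply]

theorem cyc [IsAlgClosed K] [CharZero K] {h e : ℕ → K[X]} {M : ℕ} (hM0 : 0 < M)
    (hM : ∀ s, h (s + M) = h s) (heM : ∀ s, e (s + M) = e s) (hd : ∀ s, 2 ≤ (h s).natDegree)
    (he : ∀ s, e s ≠ 0) :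
    ∃ L, 0 < L ∧ ∃ t : ℕ → K, (∀ s, t (s + 1) = (h s).eval (t s)) ∧
      (∀ s, t (s + M * L) = t s) ∧ ∀ s, (e s).eval (t s) ≠ 0 := by
  classical
  set g := Hs h M with hg
  have hgd : 2 ≤ g.natDegree := by
    have h1 := Hs_deg hd M
    have h2 : 2 ^ 1 ≤ 2 ^ M := Nat.pow_le_pow_right (by norm_num) hM0
    rw [← hg] at h1
    omega
  have hinf := infinite_periodic g hgd
  set f : K → K := fun y => g.eval y with hf
  -- the bad polynomial
  set E : K[X] := ∏ s ∈ Finset.range M, (e s).comp (Hs h s) with hE
  have hE0 : E ≠ 0 := by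
    rw [hE, Finset.prod_ne_zero_iff]
    intro s _ h0
    rcases comp_eq_zero_iff.1 h0 with h1 | ⟨-, h1⟩
    · exact he s h1
    · have h2 := Hs_deg hd s
      rw [h1, natDegree_C] at h2
      have h3 : 0 < 2 ^ s := by positivity
      omega
  have hep : ∀ n s, e (M * n + s) = e s := by
    intro n
    induction n with
    | zero => intro s; rw [mul_zero, zero_add]
    | succ n ih =>
      intro s
      have e1 : M * (n + 1) + s = M * n + (s + M) := by ring
      rw [e1, ih, heM]
  -- a periodic point whose orbit avoids the roots of E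
  obtain ⟨t, ⟨L, hL, ht⟩, hbad⟩ : ∃ t, (∃ L, 0 < L ∧ f^[L] t = t) ∧ ∀ n, E.eval (f^[n] t) ≠ 0 := by
    by_contra hcon
    push Not at hcon
    apply hinf
    have hper : ∀ t', ∃ L, 0 < L ∧ ((∃ L, 0 < L ∧ f^[L] t' = t') → f^[L] t' = t') := by
      intro t'
      by_cases h : ∃ L, 0 < L ∧ f^[L] t' = t'
      · obtain ⟨L, hL, h1⟩ := h
        exact ⟨L, hL, fun _ => h1⟩
      · exact ⟨1, one_pos, fun h' => absurd h' h⟩
    choose ℓ hℓ0 hℓ using hper
    refine (E.roots.toFinset.biUnion fun t' => (Finset.range (ℓ t')).image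
      fun m => f^[m] t').finite_toSet.subset ?_
    rintro t ⟨L, hL, ht⟩
    obtain ⟨n, hn⟩ := hcon t ⟨L, hL, ht⟩
    have hLn : Function.IsPeriodicPt f L t := ht
    have hper' : f^[ℓ (f^[n] t)] (f^[n] t) = f^[n] t := by
      apply hℓ
      exact ⟨L, hL, by rw [← Function.iterate_add_apply, add_comm, Function.iterate_add_apply, ht]⟩
    rw [Finset.mem_coe, Finset.mem_biUnion]
    refine ⟨f^[n] t, ?_, ?_⟩
    · rw [Multiset.mem_toFinset, mem_roots hE0]
      exact hn
    · have hLn' : n ≤ L * n := Nat.le_mul_of_pos_left _ hL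
      have h1 : f^[L * n - n] (f^[n] t) = t := by
        rw [← Function.iterate_add_apply, Nat.sub_add_cancel hLn']
        exact hLn.mul_const n
      refine Finset.mem_image.2 ⟨(L * n - n) % ℓ (f^[n] t),
        Finset.mem_range.2 (Nat.mod_lt _ (hℓ0 _)), ?_⟩
      have h2 : Function.IsPeriodicPt f (ℓ (f^[n] t)) (f^[n] t) := hper'
      rw [h2.iterate_mod_apply]
      exact h1
  refine ⟨L, hL, fun s => (Hs h s).eval t, fun s => ?_, fun s => ?_, fun s => ?_⟩
  · show ((h s).comp (Hs h s)).eval t = _
    rw [eval_comp]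
  · show (Hs h (s + M * L)).eval t = (Hs h s).eval t
    rw [add_comm, Hs_mul hM, ht]
  · have h1 := hbad (s / M)
    rw [hE, eval_prod, Finset.prod_ne_zero_iff] at h1
    have h2 := h1 (s % M) (Finset.mem_range.2 (Nat.mod_lt _ hM0))
    rw [eval_comp, ← Hs_mul hM, Nat.div_add_mod, ← hep (s / M), Nat.div_add_mod] at h2
    exact h2

/-- the specialization to one variable -/
theorem exists_spec {N : ℕ} (B : MvPolynomial (Fin N) K) (z : Fin N → K) (i : Fin N) :
    ∃ b : K[X], ∀ t, b.eval t = MvPolynomial.eval (Function.update z i t) B := by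
  classical
  refine ⟨MvPolynomial.eval₂ C (Function.update (fun j => C (z j)) i X) B, fun t => ?_⟩
  have h1 : ∀ P : MvPolynomial (Fin N) K,
      (MvPolynomial.eval₂ C (Function.update (fun j => C (z j)) i X) P).eval t =
        MvPolynomial.eval (Function.update z i t) P := by
    intro P
    induction P using MvPolynomial.induction_on with
    | C a => rw [MvPolynomial.eval₂_C, eval_C, MvPolynomial.eval_C]
    | add p q hp hq => rw [MvPolynomial.eval₂_add, eval_add, hp, hq, map_add]
    | mul_X p j hp =>
      rw [MvPolynomial.eval₂_mul, eval_mul, hp, map_mul, MvPolynomial.eval₂_X,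
        MvPolynomial.eval_X]
      congr 1
      by_cases hj : j = i
      · subst hj
        rw [Function.update_self, Function.update_self, eval_X]
      · rw [Function.update_of_ne hj, Function.update_of_ne hj, eval_C]
  exact h1 B

theorem exists_cycle [IsAlgClosed K] [CharZero K] {N : ℕ} {d : Fin N → ℕ}
    {c : Fin N → ℕ → MvPolynomial (Fin N) K} (hd : ∀ i, 2 ≤ d i)
    (hl : ∀ i, c i (d i) ≠ 0) (hc : ∀ i k, ∀ j ∈ (c i k).vars, i < j) :
    ∃ (M : ℕ) (γ : ℕ → Fin N → K), 0 < M ∧ (∀ s, γ (s + M) = γ s) ∧
      (∀ s i, (gq d c i (γ s)).eval (γ s i) = γ (s + 1) i) ∧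
      (∀ s i, (derivative (gq d c i (γ s))).eval (γ s i) ≠ 0) ∧
      ∀ s i, MvPolynomial.eval (γ s) (c i (d i)) ≠ 0 := by
  classical
  have : Infinite K := IsAlgClosed.instInfinite
  set B : MvPolynomial (Fin N) K := ∏ i, c i (d i) with hB
  have hB0 : B ≠ 0 := Finset.prod_ne_zero_iff.2 fun i _ => hl i
  have hBl : ∀ z i, MvPolynomial.eval z B ≠ 0 → MvPolynomial.eval z (c i (d i)) ≠ 0 := by
    intro z i h
    rw [hB, map_prod, Finset.prod_ne_zero_iff] at h
    exact h i (Finset.mem_univ i)
  have hqc : ∀ i (x y : Fin N → K), (∀ j, i < j → x j = y j) → gq d c i x = gq d c i y :=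
    fun i x y h => gp_congr hc h
  have hqd : ∀ i x, MvPolynomial.eval x (c i (d i)) ≠ 0 → (gq d c i x).natDegree = d i := by
    intro i x hx
    have e1 : gq d c i x = ∑ k ∈ Finset.range (d i + 1),
        C (MvPolynomial.eval x (c i k)) * X ^ k := by
      unfold gq gp
      rw [C_0, zero_mul, zero_add]
    apply le_antisymm
    · rw [e1]
      refine natDegree_sum_le_of_forall_le _ _ fun k hk => ?_
      have := Finset.mem_range.1 hk
      exact (natDegree_C_mul_X_pow_le _ _).trans (by omega)
    · apply le_natDegree_of_ne_zero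
      rw [e1, finsetSum_coeff, Finset.sum_range_succ, Finset.sum_eq_zero, zero_add, coeff_C_mul,
        coeff_X_pow, if_pos rfl, mul_one]
      · exact hx
      · intro k hk
        have := Finset.mem_range.1 hk
        rw [coeff_C_mul, coeff_X_pow, if_neg (by omega), mul_zero]
  have key : ∀ m : ℕ, m ≤ N → ∃ (M : ℕ) (γ : ℕ → Fin N → K), 0 < M ∧ (∀ s, γ (s + M) = γ s) ∧
      (∀ s (i : Fin N), N ≤ i + m → (gq d c i (γ s)).eval (γ s i) = γ (s + 1) i ∧
        (derivative (gq d c i (γ s))).eval (γ s i) ≠ 0) ∧
      ∀ s, ∃ z : Fin N → K, (∀ j : Fin N, N ≤ j + m → z j = γ s j) ∧ MvPolynomial.eval z B ≠ 0 := by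
    intro m
    induction m with
    | zero =>
      intro _
      obtain ⟨z, hz⟩ : ∃ z, MvPolynomial.eval z B ≠ 0 := by
        by_contra hcon
        push Not at hcon
        apply hB0
        apply MvPolynomial.funext
        intro z
        rw [hcon z, map_zero]
      refine ⟨1, fun _ => 0, one_pos, fun _ => rfl, fun s i hi => ?_, fun s => ⟨z, fun j hj => ?_, hz⟩⟩
      · have := i.2
        omega
      · have := j.2
        omega
    | succ m ih =>
      intro hm
      obtain ⟨M, γ, hM0, hM, hγ, hz⟩ := ih (by omega)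
      choose z hz1 hz2 using hz
      set i₀ : Fin N := ⟨N - (m + 1), by omega⟩ with hi₀
      have hi₀v : (i₀ : ℕ) = N - (m + 1) := rfl
      have hMn : ∀ n s, γ (M * n + s) = γ s := by
        intro n
        induction n with
        | zero => intro s; rw [mul_zero, zero_add]
        | succ n ih =>
          intro s
          have e1 : M * (n + 1) + s = M * n + (s + M) := by ring
          rw [e1, ih, hM]
      have hmod : ∀ s, γ (s % M) = γ s := by
        intro s
        conv_rhs => rw [← Nat.div_add_mod s M]
        rw [hMn]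
      -- polynomials
      set h : ℕ → K[X] := fun s => gq d c i₀ (γ s) with hh
      have hgt : ∀ j : Fin N, i₀ < j → N ≤ j + m := by
        intro j hj
        have : (i₀ : ℕ) < j := hj
        omega
      have hlead : ∀ s, MvPolynomial.eval (γ s) (c i₀ (d i₀)) ≠ 0 := by
        intro s
        rw [← eval_congr_vars (x := z s) fun j hj => hz1 s j (hgt j (hc i₀ (d i₀) j hj))]
        exact hBl _ _ (hz2 s)
      have hhd : ∀ s, (h s).natDegree = d i₀ := fun s => hqd i₀ _ (hlead s)
      choose b hb using fun s => exists_spec B (z (s % M)) i₀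
      have hb0 : ∀ s, b s ≠ 0 := by
        intro s h0
        apply hz2 (s % M)
        have := hb s (z (s % M) i₀)
        rw [h0, eval_zero, Function.update_eq_self] at this
        exact this.symm
      have hderiv : ∀ s, derivative (h s) ≠ 0 := by
        intro s h0
        have h1 := derivative_eq_zero.1 h0
        have h2 := hd i₀
        rw [hhd s] at h1
        omega
      -- b is periodic up to evaluation, so use the representative
      set e : ℕ → K[X] := fun s => b (s % M) * derivative (h s) with he
      obtain ⟨L, hL, t, ht1, ht2, ht3⟩ := cyc (h := h) (e := e) hM0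
        (fun s => by simp only [hh, hM]) (fun s => by simp only [he, hh, hM, Nat.add_mod_right])
        (fun s => by rw [hhd]; exact hd i₀) (fun s => mul_ne_zero (hb0 _) (hderiv s))
      refine ⟨M * L, fun s => Function.update (γ s) i₀ (t s), Nat.mul_pos hM0 hL, fun s => ?_,
        fun s i hi => ?_, fun s => ?_⟩
      · show Function.update (γ (s + M * L)) i₀ (t (s + M * L)) = _
        rw [ht2, add_comm, hMn]
      · have hle : i₀ ≤ i := by
          rw [Fin.le_def]
          omega
        have hcong : gq d c i (Function.update (γ s) i₀ (t s)) = gq d c i (γ s) := by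
          apply hqc
          intro j hj
          rw [Function.update_of_ne]
          exact (lt_of_le_of_lt hle hj).ne'
        beta_reduce
        rw [hcong]
        by_cases hii : i = i₀
        · subst hii
          rw [Function.update_self, Function.update_self]
          refine ⟨(ht1 s).symm, ?_⟩
          have := ht3 s
          rw [he, eval_mul] at this
          exact right_ne_zero_of_mul this
        · rw [Function.update_of_ne hii, Function.update_of_ne hii]
          apply hγ
          have h1 : (i : ℕ) ≠ i₀ := fun h' => hii (Fin.ext h')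
          have h2 : (i₀ : ℕ) ≤ i := hle
          omega
      · beta_reduce
        refine ⟨Function.update (z (s % M)) i₀ (t s), fun j hj => ?_, ?_⟩
        · by_cases hjj : j = i₀
          · subst hjj
            rw [Function.update_self, Function.update_self]
          · rw [Function.update_of_ne hjj, Function.update_of_ne hjj]
            have h1 : (j : ℕ) ≠ i₀ := fun h' => hjj (Fin.ext h')
            rw [hz1 (s % M) j (by omega), hmod]
        · have h1 := ht3 s
          rw [he, eval_mul] at h1
          have h2 := left_ne_zero_of_mul h1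
          rw [hb, Nat.mod_mod] at h2
          exact h2
  obtain ⟨M, γ, hM0, hM, hγ, hz⟩ := key N le_rfl
  refine ⟨M, γ, hM0, hM, fun s i => (hγ s i (by omega)).1, fun s i => (hγ s i (by omega)).2,
    fun s i => ?_⟩
  obtain ⟨z, hz1, hz2⟩ := hz s
  have : z = γ s := funext fun j => hz1 j (by omega)
  rw [← this]
  exact hBl z i hz2

end Pool.Agent.TH61.TRI
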