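import Mathlib

/-!
# Zariski density from coordinates that tend to infinity at different places
-/

set_option autoImplicit false

namespace Pool.Agent.TH61.TRI

open Filter Topology

theorem densityInf {K : Type} [Field K] : ∀ (N : ℕ) (t : ℕ → Fin N → K)
    (_ : ∀ i : Fin N, ∃ (Ω : Type) (_ : NormedField Ω) (σ : K →+* Ω) (M : ℕ → ℕ),
      (∀ n, t n i ≠ 0) ∧ Tendsto (fun n => (σ (t n i))⁻¹) atTop (𝓝 0) ∧ Tendsto M atTop atTop ∧
      ∀ m j, i < j → Tendsto (fun k => σ (t (m + M k) j)) atTop (𝓝 (σ (t m j))))
    (R : MvPolynomial (Fin N) K), (∀ n, MvPolynomial.eval (t n) R = 0) → R = 0 := by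
  intro N
  induction N with
  | zero =>
    intro t _ R hR
    rw [MvPolynomial.eq_C_of_isEmpty R] at hR ⊢
    have := hR 0
    rw [MvPolynomial.eval_C] at this
    rw [this, map_zero]
  | succ N ih =>
    intro t ht R hR
    set s : ℕ → Fin N → K := fun n j => t n j.succ with hs
    have hcons : ∀ n, t n = Fin.cons (t n 0) (s n) := fun n => (Fin.cons_self_tail (t n)).symm
    have IH := ih s (by
      intro i
      obtain ⟨Ω, hΩ, σ, M, h1, h2, h3, h4⟩ := ht i.succ
      exact ⟨Ω, hΩ, σ, M, h1, h2, h3, fun m j hij => h4 m j.succ (Fin.succ_lt_succ_iff.2 hij)⟩)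
    obtain ⟨Ω, hΩ, σ, M, h1, h2, h3, h4⟩ := ht 0
    by_contra hne
    have hQ0 : MvPolynomial.finSuccEquiv K N R ≠ 0 := by
      intro h
      exact hne ((map_eq_zero_iff _ (MvPolynomial.finSuccEquiv K N).injective).1 h)
    set Q := MvPolynomial.finSuccEquiv K N R with hQ
    apply hQ0
    rw [← Polynomial.leadingCoeff_eq_zero]
    apply IH
    intro m
    apply σ.injective
    rw [map_zero]
    -- limits of coefficients
    have lim1 : ∀ c : MvPolynomial (Fin N) K,
        Tendsto (fun k => σ (MvPolynomial.eval (s (m + M k)) c)) atTop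
          (𝓝 (σ (MvPolynomial.eval (s m) c))) := by
      intro c
      induction c using MvPolynomial.induction_on with
      | C a => simp only [MvPolynomial.eval_C]; exact tendsto_const_nhds
      | add p q hp hq =>
        simp only [map_add]
        exact hp.add hq
      | mul_X p j hp =>
        simp only [map_mul, MvPolynomial.eval_X]
        exact hp.mul (h4 m j.succ (Fin.succ_pos j))
    have lim0 : Tendsto (fun k => (σ (t (m + M k) 0))⁻¹) atTop (𝓝 0) :=
      h2.comp (tendsto_atTop_mono (fun k => Nat.le_add_left (M k) m) h3)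
    set D := Q.natDegree with hD
    have lim2 : Tendsto (fun k => ∑ j ∈ Finset.range (D + 1),
        σ (MvPolynomial.eval (s (m + M k)) (Q.coeff j)) * ((σ (t (m + M k) 0))⁻¹) ^ (D - j)) atTop
        (𝓝 (∑ j ∈ Finset.range (D + 1), σ (MvPolynomial.eval (s m) (Q.coeff j)) *
          (0 : Ω) ^ (D - j))) :=
      tendsto_finsetSum _ fun j _ => (lim1 (Q.coeff j)).mul (lim0.pow (D - j))
    have hzero : ∀ k, ∑ j ∈ Finset.range (D + 1),
        σ (MvPolynomial.eval (s (m + M k)) (Q.coeff j)) *
          ((σ (t (m + M k) 0))⁻¹) ^ (D - j) = 0 := by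
      intro k
      have h5 := hR (m + M k)
      rw [hcons, MvPolynomial.eval_eq_eval_mv_eval', ← hQ,
        Polynomial.eval_eq_sum_range' (n := D + 1)
          (lt_of_le_of_lt Polynomial.natDegree_map_le (Nat.lt_succ_self _))] at h5
      simp only [Polynomial.coeff_map] at h5
      set x := t (m + M k) 0 with hx
      have hx0 : σ x ≠ 0 := by
        rw [_root_.map_ne_zero]
        exact h1 _
      have h6 : (σ x) ^ D * ∑ j ∈ Finset.range (D + 1),
          σ (MvPolynomial.eval (s (m + M k)) (Q.coeff j)) * ((σ x)⁻¹) ^ (D - j) = 0 := by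
        rw [← map_zero σ, ← h5, map_sum, Finset.mul_sum]
        refine Finset.sum_congr rfl fun j hj => ?_
        have hj' : j ≤ D := by
          have := Finset.mem_range.1 hj
          omega
        rw [map_mul, map_pow]
        have e1 : (σ x) ^ D = (σ x) ^ j * (σ x) ^ (D - j) := by
          rw [← pow_add]
          congr 1
          omega
        have e2 : (σ x) ^ (D - j) * ((σ x)⁻¹) ^ (D - j) = 1 := by
          rw [← mul_pow, mul_inv_cancel₀ hx0, one_pow]
        show _ = σ (MvPolynomial.eval (s (m + M k)) (Q.coeff j)) * (σ x) ^ j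
        rw [e1]
        linear_combination (σ (MvPolynomial.eval (s (m + M k)) (Q.coeff j)) * (σ x) ^ j) * e2
      exact (mul_eq_zero.1 h6).resolve_left (pow_ne_zero _ hx0)
    simp only [hzero] at lim2
    have h7 := tendsto_nhds_unique lim2 tendsto_const_nhds
    rw [Finset.sum_range_succ, Nat.sub_self, pow_zero, mul_one, Finset.sum_eq_zero, zero_add] at h7
    · exact h7
    · intro j hj
      have := Finset.mem_range.1 hj
      rw [zero_pow (by omega), mul_zero]

end Pool.Agent.TH61.TRI
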