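import Mathlib

/-!
# Fixed points of triangular polynomial maps
-/

set_option autoImplicit false

namespace Pool.Agent.TH61.TRI

open Polynomial

/-- a fixed point that is not critical -/
theorem one_var {K : Type} [Field K] [IsAlgClosed K] [CharZero K] (g : K[X])
    (hg : 2 ≤ g.natDegree) : ∃ x, g.eval x = x ∧ (derivative g).eval x ≠ 0 := by
  classical
  by_contra hcon
  push Not at hcon
  set q : K[X] := g - X with hq
  have hqd : q.natDegree = g.natDegree := by
    rw [hq]
    apply natDegree_sub_eq_left_of_natDegree_lt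
    rw [natDegree_X]
    omega
  have hq0 : q ≠ 0 := by
    intro h
    rw [h, natDegree_zero] at hqd
    omega
  have hroot : ∀ x, q.eval x = 0 → (derivative g).eval x = 0 := by
    intro x hx
    apply hcon
    rw [hq, eval_sub, eval_X, sub_eq_zero] at hx
    exact hx
  have hnodup : q.roots.Nodup := by
    rw [Multiset.nodup_iff_count_le_one]
    intro x
    rw [count_roots]
    by_contra hlt
    push Not at hlt
    have h1 := (one_lt_rootMultiplicity_iff_isRoot hq0).1 hlt
    have h2 := hroot x h1.1
    have h3 : (derivative q).eval x = 0 := h1.2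
    rw [hq, derivative_sub, derivative_X, eval_sub, eval_one, h2] at h3
    simp at h3
  have hcard : q.roots.toFinset.card = g.natDegree := by
    rw [Multiset.toFinset_card_of_nodup hnodup, ← hqd]
    exact (splits_iff_card_roots.1 (IsAlgClosed.splits q))
  have hzero : derivative g = 0 := by
    apply eq_zero_of_natDegree_lt_card_of_eval_eq_zero' _ q.roots.toFinset
    · intro x hx
      rw [Multiset.mem_toFinset, mem_roots hq0] at hx
      exact hroot x hx
    · rw [hcard]
      exact natDegree_derivative_lt (by omega)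
  have := derivative_eq_zero.1 hzero
  omega

section gp

variable {A : Type} [CommRing A] {N : ℕ}

/-- the polynomial of the `i`-th coordinate in its own variable -/
noncomputable def gp (a : Fin N → A) (d : Fin N → ℕ) (c : Fin N → ℕ → MvPolynomial (Fin N) A)
    (i : Fin N) (x : Fin N → A) : A[X] :=
  C (a i) * X ^ d i + ∑ k ∈ Finset.range (d i), C (MvPolynomial.eval x (c i k)) * X ^ k

theorem eval_congr_vars {P : MvPolynomial (Fin N) A} {x y : Fin N → A}
    (h : ∀ j ∈ P.vars, x j = y j) : MvPolynomial.eval x P = MvPolynomial.eval y P :=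
  MvPolynomial.eval₂Hom_congr' rfl (fun j hj _ => h j hj) rfl

theorem gp_congr {a : Fin N → A} {d : Fin N → ℕ} {c : Fin N → ℕ → MvPolynomial (Fin N) A}
    (hc : ∀ i k, ∀ j ∈ (c i k).vars, i < j) {i : Fin N} {x y : Fin N → A}
    (h : ∀ j, i < j → x j = y j) : gp a d c i x = gp a d c i y := by
  unfold gp
  congr 1
  refine Finset.sum_congr rfl fun k _ => ?_
  rw [eval_congr_vars fun j hj => h j (hc i k j hj)]

end gp

/-- a fixed point with nonzero diagonal derivatives -/
theorem exists_gamma {K : Type} [Field K] [IsAlgClosed K] [CharZero K] {N : ℕ} {a : Fin N → K}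
    {d : Fin N → ℕ} {c : Fin N → ℕ → MvPolynomial (Fin N) K} (hd : ∀ i, 2 ≤ d i)
    (ha : ∀ i, a i ≠ 0) (hc : ∀ i k, ∀ j ∈ (c i k).vars, i < j) :
    ∃ γ : Fin N → K, ∀ i, (gp a d c i γ).eval (γ i) = γ i ∧
      (derivative (gp a d c i γ)).eval (γ i) ≠ 0 := by
  classical
  have hdeg : ∀ i x, 2 ≤ (gp a d c i x).natDegree := by
    intro i x
    refine (hd i).trans (le_natDegree_of_ne_zero ?_)
    unfold gp
    rw [coeff_add, coeff_C_mul, coeff_X_pow, if_pos rfl, mul_one, finsetSum_coeff,
      Finset.sum_eq_zero, add_zero]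
    · exact ha i
    · intro k hk
      have := Finset.mem_range.1 hk
      rw [coeff_C_mul, coeff_X_pow, if_neg (by omega), mul_zero]
  have key : ∀ m : ℕ, m ≤ N → ∃ γ : Fin N → K, ∀ i : Fin N, N ≤ i + m →
      (gp a d c i γ).eval (γ i) = γ i ∧ (derivative (gp a d c i γ)).eval (γ i) ≠ 0 := by
    intro m
    induction m with
    | zero =>
      intro _
      refine ⟨0, fun i hi => ?_⟩
      have := i.2
      omega
    | succ m ih =>
      intro hm
      obtain ⟨γ, hγ⟩ := ih (by omega)
      set i₀ : Fin N := ⟨N - (m + 1), by omega⟩ with hi₀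
      obtain ⟨x, hx1, hx2⟩ := one_var (gp a d c i₀ γ) (hdeg i₀ γ)
      refine ⟨Function.update γ i₀ x, fun i hi => ?_⟩
      have hcong : ∀ i : Fin N, i₀ ≤ i →
          gp a d c i (Function.update γ i₀ x) = gp a d c i γ := by
        intro i hi
        apply gp_congr hc
        intro j hj
        rw [Function.update_of_ne]
        exact (lt_of_le_of_lt hi hj).ne'
      have hle : i₀ ≤ i := by
        rw [Fin.le_def]
        show N - (m + 1) ≤ (i : ℕ)
        omega
      rw [hcong i hle]
      by_cases h : i = i₀
      · subst h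
        rw [Function.update_self]
        exact ⟨hx1, hx2⟩
      · rw [Function.update_of_ne h]
        apply hγ
        have h1 : (i : ℕ) ≠ N - (m + 1) := fun h' => h (Fin.ext h')
        have h2 : N - (m + 1) ≤ (i : ℕ) := hle
        omega
  obtain ⟨γ, hγ⟩ := key N le_rfl
  exact ⟨γ, fun i => hγ i (by omega)⟩

end Pool.Agent.TH61.TRI
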