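import Pool.Agent.TH61.TRI.Fix
import Pool.Agent.TH61.PCF.Loc

/-!
# Triangular polynomial maps over the `p`-adic integers near a fixed point
-/

set_option autoImplicit false

namespace Pool.Agent.TH61.TRI

open Polynomial Pool.Agent.TH61.PCF

variable {p : ℕ} [Fact p.Prime] {N : ℕ}

theorem nadd {x y : ℤ_[p]} {r : ℝ} (hx : ‖x‖ ≤ r) (hy : ‖y‖ ≤ r) : ‖x + y‖ ≤ r :=
  (PadicInt.nonarchimedean x y).trans (max_le hx hy)

theorem nsub {x y : ℤ_[p]} {r : ℝ} (hx : ‖x‖ ≤ r) (hy : ‖y‖ ≤ r) : ‖x - y‖ ≤ r := by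
  rw [sub_eq_add_neg]
  exact nadd hx (by rwa [norm_neg])

theorem nmul (x y : ℤ_[p]) : ‖x * y‖ ≤ ‖y‖ := by
  rw [norm_mul]
  exact mul_le_of_le_one_left (norm_nonneg _) (PadicInt.norm_le_one _)

/-- truncation to the coordinates after `i` -/
noncomputable def tr (i : Fin N) (y : Fin N → ℤ_[p]) : Fin N → ℤ_[p] := fun j => if i < j then y j else 0

theorem tr_of {i j : Fin N} (h : i < j) (y : Fin N → ℤ_[p]) : tr i y j = y j := if_pos h

theorem tr_not {i j : Fin N} (h : ¬ i < j) (y : Fin N → ℤ_[p]) : tr i y j = 0 := if_neg h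

theorem lip (P : MvPolynomial (Fin N) ℤ_[p]) (y z : Fin N → ℤ_[p]) :
    ‖MvPolynomial.eval y P - MvPolynomial.eval z P‖ ≤ ‖y - z‖ := by
  induction P using MvPolynomial.induction_on with
  | C a => simp
  | add P Q hP hQ =>
    rw [map_add, map_add]
    have e : MvPolynomial.eval y P + MvPolynomial.eval y Q -
        (MvPolynomial.eval z P + MvPolynomial.eval z Q) =
        (MvPolynomial.eval y P - MvPolynomial.eval z P) +
        (MvPolynomial.eval y Q - MvPolynomial.eval z Q) := by ring
    rw [e]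
    exact nadd hP hQ
  | mul_X P j hP =>
    rw [map_mul, map_mul, MvPolynomial.eval_X, MvPolynomial.eval_X]
    have e : MvPolynomial.eval y P * y j - MvPolynomial.eval z P * z j =
        MvPolynomial.eval y P * (y j - z j) +
        z j * (MvPolynomial.eval y P - MvPolynomial.eval z P) := by ring
    rw [e]
    exact nadd ((nmul _ _).trans (norm_le_pi_norm (y - z) j)) ((nmul _ _).trans hP)

theorem tr_norm_le {i : Fin N} {y z : Fin N → ℤ_[p]} {r : ℝ} (hr : 0 ≤ r)
    (h : ∀ j, i < j → ‖y j - z j‖ ≤ r) : ‖tr i y - tr i z‖ ≤ r := by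
  refine (pi_norm_le_iff_of_nonneg hr).2 fun j => ?_
  rw [Pi.sub_apply]
  by_cases hj : i < j
  · rw [tr_of hj, tr_of hj]
    exact h j hj
  · rw [tr_not hj, tr_not hj, sub_self, norm_zero]
    exact hr

theorem le_tr_norm {i j : Fin N} (hj : i < j) (y z : Fin N → ℤ_[p]) :
    ‖y j - z j‖ ≤ ‖tr i y - tr i z‖ := by
  have := norm_le_pi_norm (tr i y - tr i z) j
  rwa [Pi.sub_apply, tr_of hj, tr_of hj] at this

theorem lip_tr {i : Fin N} {P : MvPolynomial (Fin N) ℤ_[p]} (hP : ∀ j ∈ P.vars, i < j)
    (y z : Fin N → ℤ_[p]) :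
    ‖MvPolynomial.eval y P - MvPolynomial.eval z P‖ ≤ ‖tr i y - tr i z‖ := by
  rw [eval_congr_vars (x := y) (y := tr i y) fun j hj => (tr_of (hP j hj) y).symm,
    eval_congr_vars (x := z) (y := tr i z) fun j hj => (tr_of (hP j hj) z).symm]
  exact lip P _ _

theorem eval_le {P : ℤ_[p][X]} {r : ℝ} (hr : 0 ≤ r) (h : ∀ n, ‖P.coeff n‖ ≤ r) (t : ℤ_[p]) :
    ‖P.eval t‖ ≤ r := by
  rw [eval_eq_sum_range]
  refine Finset.sum_induction _ (fun x => ‖x‖ ≤ r) (fun x y => nadd) (by simpa using hr)
    fun n _ => ?_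
  rw [mul_comm]
  exact (nmul _ _).trans (h n)

theorem deriv_coeff_le {P : ℤ_[p][X]} {r : ℝ} (h : ∀ n, ‖P.coeff n‖ ≤ r) (n : ℕ) :
    ‖(derivative P).coeff n‖ ≤ r := by
  rw [coeff_derivative, mul_comm]
  exact (nmul _ _).trans (h _)

/-- isometry in one variable -/
theorem ov {g : ℤ_[p][X]} {s t : ℤ_[p]} (hst : ‖s - t‖ < 1) (hu : IsUnit ((derivative g).eval t)) :
    ‖g.eval s - g.eval t‖ = ‖s - t‖ := by
  obtain ⟨k, hk⟩ := binomExpansion g t (s - t)
  rw [add_sub_cancel] at hk
  have e : g.eval s - g.eval t = (s - t) * ((derivative g).eval t + k * (s - t)) := by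
    rw [hk]; ring
  have hun : IsUnit ((derivative g).eval t + k * (s - t)) := by
    refine unit_of_near hu ?_
    rw [add_sub_cancel_left]
    exact (nmul _ _).trans_lt hst
  rw [e, norm_unit_mul hun]

section step

variable {a : Fin N → ℤ_[p]} {d : Fin N → ℕ} {c : Fin N → ℕ → MvPolynomial (Fin N) ℤ_[p]}

theorem gp_coeff {j : Fin N} {y z : Fin N → ℤ_[p]} {r : ℝ} (hr : 0 ≤ r)
    (h : ∀ k, ‖MvPolynomial.eval y (c j k) - MvPolynomial.eval z (c j k)‖ ≤ r) (n : ℕ) :
    ‖(gp a d c j y - gp a d c j z).coeff n‖ ≤ r := by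
  have e : gp a d c j y - gp a d c j z = ∑ k ∈ Finset.range (d j),
      C (MvPolynomial.eval y (c j k) - MvPolynomial.eval z (c j k)) * X ^ k := by
    unfold gp
    rw [add_sub_add_left_eq_sub, ← Finset.sum_sub_distrib]
    refine Finset.sum_congr rfl fun k _ => ?_
    rw [C_sub]
    ring
  rw [e, finsetSum_coeff]
  refine Finset.sum_induction _ (fun x => ‖x‖ ≤ r) (fun x y => nadd) (by simpa using hr)
    fun k _ => ?_
  rw [coeff_C_mul, mul_comm]
  exact (nmul _ _).trans (h k)

/-- the map -/
noncomputable def step (a : Fin N → ℤ_[p]) (d : Fin N → ℕ)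
    (c : Fin N → ℕ → MvPolynomial (Fin N) ℤ_[p]) (y : Fin N → ℤ_[p]) : Fin N → ℤ_[p] :=
  fun j => (gp a d c j y).eval (y j)

theorem iso_step (hc : ∀ i k, ∀ j ∈ (c i k).vars, i < j) (i : Fin N) {γ y z : Fin N → ℤ_[p]}
    (hγ : ∀ j, i < j → IsUnit ((derivative (gp a d c j γ)).eval (γ j)))
    (hy : ‖tr i y - tr i γ‖ < 1) (hz : ‖tr i z - tr i γ‖ < 1) :
    ‖tr i (step a d c y) - tr i (step a d c z)‖ = ‖tr i y - tr i z‖ := by
  have hdiff : ∀ j, step a d c y j - step a d c z j = (gp a d c j y - gp a d c j z).eval (y j) +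
      ((gp a d c j z).eval (y j) - (gp a d c j z).eval (z j)) := by
    intro j
    simp only [step, eval_sub]
    ring
  apply le_antisymm
  · refine tr_norm_le (norm_nonneg _) fun j hj => ?_
    rw [hdiff]
    refine nadd (eval_le (norm_nonneg _) (gp_coeff (norm_nonneg _) fun k => ?_) _)
      ((norm_eval_sub _ _ _).trans (le_tr_norm hj y z))
    exact lip_tr (fun l hl => hj.trans (hc j k l hl)) y z
  · set η := ‖tr i (step a d c y) - tr i (step a d c z)‖ with hη
    have hη0 : 0 ≤ η := norm_nonneg _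
    refine tr_norm_le hη0 ?_
    have key : ∀ m : ℕ, ∀ j : Fin N, N ≤ j + m → i < j → ‖y j - z j‖ ≤ η := by
      intro m
      induction m with
      | zero =>
        intro j hj
        have := j.2
        omega
      | succ m ih =>
        intro j hj hij
        have h1 : ‖tr j y - tr j z‖ ≤ η := by
          refine tr_norm_le hη0 fun l hl => ih l ?_ (hij.trans hl)
          have : (j : ℕ) < l := hl
          omega
        -- the derivative
        have hu : IsUnit ((derivative (gp a d c j z)).eval (z j)) := by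
          refine unit_of_near (hγ j hij) ?_
          have e : (derivative (gp a d c j z)).eval (z j) -
              (derivative (gp a d c j γ)).eval (γ j) =
              (derivative (gp a d c j z - gp a d c j γ)).eval (z j) +
              ((derivative (gp a d c j γ)).eval (z j) -
                (derivative (gp a d c j γ)).eval (γ j)) := by
            rw [derivative_sub, eval_sub]
            ring
          rw [e]
          refine lt_of_le_of_lt (nadd (eval_le (norm_nonneg _) (deriv_coeff_le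
            (gp_coeff (norm_nonneg _) fun k => ?_)) _)
            ((norm_eval_sub _ _ _).trans (le_tr_norm hij z γ))) hz
          exact lip_tr (fun l hl => hij.trans (hc j k l hl)) z γ
        have hyz : ‖y j - z j‖ < 1 := by
          have e : y j - z j = (y j - γ j) - (z j - γ j) := by ring
          rw [e]
          refine lt_of_le_of_lt (nsub (le_max_left _ _) (le_max_right _ _)) (max_lt
            ((le_tr_norm hij y γ).trans_lt hy) ((le_tr_norm hij z γ).trans_lt hz))
        rw [← ov hyz hu]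
        have e : (gp a d c j z).eval (y j) - (gp a d c j z).eval (z j) =
            (step a d c y j - step a d c z j) - (gp a d c j y - gp a d c j z).eval (y j) := by
          rw [hdiff]; ring
        rw [e]
        refine nsub (le_tr_norm hij _ _) (eval_le hη0 (gp_coeff hη0 fun k => ?_) _)
        exact (lip_tr (fun l hl => hc j k l hl) y z).trans h1
    exact fun j hj => key N j (by omega) hj

end step

end Pool.Agent.TH61.TRI
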