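import Pool.Agent.TH61.TRI.Place
import Pool.Agent.TH61.TRI.Dens
import Pool.Agent.TH61.PCF.Emb
import Pool.Agent.TH61.PCF.Dens

/-!
# Zariski dense orbits of triangular polynomial maps
-/

set_option autoImplicit false

namespace Pool.Agent.TH61.TRI

open Polynomial Filter Topology Pool.Agent.TH61.PCF

theorem triangular (N : ℕ) (a : Fin N → AlgebraicClosure ℚ) (d : Fin N → ℕ)
    (c : Fin N → ℕ → MvPolynomial (Fin N) (AlgebraicClosure ℚ)) (hd : ∀ i, 2 ≤ d i)
    (ha : ∀ i, a i ≠ 0) (hc : ∀ i k, ∀ j ∈ (c i k).vars, i < j) :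
    ∃ x : Fin N → AlgebraicClosure ℚ, ∀ R : MvPolynomial (Fin N) (AlgebraicClosure ℚ),
      (∀ n, MvPolynomial.eval (orb a d c x n) R = 0) → R = 0 := by
  classical
  obtain ⟨γ, hγ⟩ := exists_gamma hd ha hc
  -- the places
  let Zi : Fin N → Finset (AlgebraicClosure ℚ) := fun i =>
    {a i, (a i)⁻¹, γ i, ((derivative (gp a d c i γ)).eval (γ i))⁻¹} ∪
      (Finset.range (d i)).biUnion fun k => (c i k).support.image fun m => (c i k).coeff m
  obtain ⟨p, hpinj, hpl⟩ := exists_places (Finset.univ.biUnion Zi)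
  choose hp σ hσ using hpl
  have hint : ∀ (l : ℕ) (i : Fin N), ∀ z ∈ Zi i, ∃ x : ℤ_[p l], σ l z = io (p l) x :=
    fun l i z hz => hσ l z (Finset.mem_biUnion.2 ⟨i, Finset.mem_univ _, hz⟩)
  -- the starting point
  let Q : Fin N → ℕ := fun i => ∏ j ∈ Finset.univ.erase i, p (j : ℕ)
  have hp0 : ∀ i : ℕ, (p i : AlgebraicClosure ℚ) ≠ 0 := by
    intro i
    exact_mod_cast (hp i).out.ne_zero
  have hunit : ∀ (i : ℕ) (n : ℕ), ¬ p i ∣ n → IsUnit (n : ℤ_[p i]) := by
    intro i n hn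
    rw [PadicInt.isUnit_iff]
    refine le_antisymm (PadicInt.norm_le_one _) (not_lt.1 fun hlt => hn ?_)
    have h1 : ‖((n : ℤ) : ℤ_[p i])‖ < 1 := by rwa [Int.cast_natCast]
    exact_mod_cast (PadicInt.norm_int_lt_one_iff_dvd _).1 h1
  have hlt : ∀ (i : ℕ) (n : ℕ), p i ∣ n → ‖(n : ℤ_[p i])‖ < 1 := by
    intro i n hn
    have := (PadicInt.norm_int_lt_one_iff_dvd (p := p i) (n : ℤ)).2 (by exact_mod_cast hn)
    rwa [Int.cast_natCast] at this
  have hfrac : ∀ (i : ℕ) (n d : ℕ), p i ∣ n → ¬ p i ∣ d →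
      ∃ x : ℤ_[p i], σ i ((n : AlgebraicClosure ℚ) / d) = io (p i) x ∧ ‖x‖ < 1 := by
    intro i n d hn hd
    have hu := hunit i d hd
    refine ⟨(n : ℤ_[p i]) * Ring.inverse (d : ℤ_[p i]), ?_, ?_⟩
    · have hd0 : σ i (d : AlgebraicClosure ℚ) ≠ 0 := by
        rw [_root_.map_ne_zero]
        intro h0
        apply hd
        have : d = 0 := by exact_mod_cast h0
        rw [this]
        exact dvd_zero _
      rw [map_div₀, div_eq_iff hd0, map_natCast, map_natCast, ← map_natCast (io (p i)) d,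
        ← map_mul, mul_assoc, Ring.inverse_mul_cancel _ hu, mul_one, map_natCast]
    · rw [norm_mul]
      exact (mul_le_of_le_one_right (norm_nonneg _) (PadicInt.norm_le_one _)).trans_lt (hlt i n hn)
  have hpij : ∀ i j : ℕ, i ≠ j → ¬ p i ∣ p j := by
    intro i j hij h
    exact hij (hpinj ((Nat.prime_dvd_prime_iff_eq (hp i).out (hp j).out).1 h))
  have hpQ : ∀ i : Fin N, ¬ p (i : ℕ) ∣ Q i := by
    intro i h
    obtain ⟨j, hj, hd⟩ := ((hp (i : ℕ)).out.prime.dvd_finsetProd_iff _).1 h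
    exact hpij i j (fun h => (Finset.ne_of_mem_erase hj) (Fin.ext h).symm) hd
  have hpQ' : ∀ i j : Fin N, i ≠ j → p (i : ℕ) ∣ Q j := by
    intro i j hij
    exact Finset.dvd_prod_of_mem _ (Finset.mem_erase.2 ⟨hij, Finset.mem_univ _⟩)
  let x : Fin N → AlgebraicClosure ℚ := fun i =>
    γ i + ((Q i : ℕ) : AlgebraicClosure ℚ) / (p (i : ℕ) : ℕ)
  have hplace : ∀ i : Fin N, ∃ u : ℕ → Fin N → ℤ_[p i],
      (∀ n j, i < j → σ i (orb a d c x n j) = io (p i) (u n j)) ∧
      (∀ n m, ‖u (n + 1) - u (m + 1)‖ = ‖u n - u m‖) ∧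
      ∀ n, ∃ t : ℤ_[p i], σ i (orb a d c x n i) * io (p i) t = 1 ∧ ‖t‖ < (1 / 2 : ℝ) ^ n := by
    intro i
    refine place (σ i) hd hc (fun i => (hγ i).1) (fun j => ?_) (fun j k hk m hm => ?_)
      (fun j => ?_) (fun j => (hγ j).2) (fun j => ?_) i (fun j hij => ?_) ?_
    · obtain ⟨y, hy⟩ := hint i j (a j) (Finset.mem_union_left _ (by simp))
      exact ⟨y, lift_unit (σ i) (ha j) hy (hint i j (a j)⁻¹ (Finset.mem_union_left _ (by simp))),
        hy⟩
    · exact hint i j _ (Finset.mem_union_right _ (Finset.mem_biUnion.2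
        ⟨k, Finset.mem_range.2 hk, Finset.mem_image.2 ⟨m, hm, rfl⟩⟩))
    · exact hint i j _ (Finset.mem_union_left _ (by simp))
    · exact hint i j _ (Finset.mem_union_left _ (by simp))
    · obtain ⟨y, hy, hy1⟩ := hfrac i (Q j) (p j) (hpQ' i j hij.ne)
        (hpij i j fun h => hij.ne (Fin.ext h))
      refine ⟨y, ?_, hy1⟩
      rw [← hy]
      congr 1
      show γ j + _ - γ j = _
      ring
    · obtain ⟨g, hg⟩ := hint i i (γ i) (Finset.mem_union_left _ (by simp))
      have hwu : IsUnit (g * (p (i : ℕ) : ℤ_[p i]) + (Q i : ℤ_[p i])) := by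
        refine unit_of_near (hunit i (Q i) (hpQ i)) ?_
        rw [add_sub_cancel_right]
        exact (nmul _ _).trans_lt (hlt i (p i) (dvd_refl _))
      refine ⟨(p (i : ℕ) : ℤ_[p i]) *
        Ring.inverse (g * (p (i : ℕ) : ℤ_[p i]) + (Q i : ℤ_[p i])), ?_, ?_⟩
      · have e1 : σ i (x i) * io (p i) (p (i : ℕ) : ℤ_[p i]) =
            io (p i) (g * (p (i : ℕ) : ℤ_[p i]) + (Q i : ℤ_[p i])) := by
          have hp0' : σ i (p (i : ℕ) : AlgebraicClosure ℚ) ≠ 0 := by
            rw [_root_.map_ne_zero]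
            exact hp0 i
          show σ i (γ i + _ / _) * _ = _
          rw [map_add, map_div₀, map_add, map_mul, hg, map_natCast (io (p i)),
            map_natCast (io (p i)), ← map_natCast (σ i) (p i), ← map_natCast (σ i) (Q i)]
          field_simp
        rw [map_mul, ← mul_assoc, e1, ← map_mul, Ring.mul_inverse_cancel _ hwu, map_one]
      · rw [norm_mul]
        exact (mul_le_of_le_one_right (norm_nonneg _) (PadicInt.norm_le_one _)).trans_lt
          (hlt i (p i) (dvd_refl _))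
  choose u hu1 hu2 hu3 using hplace
  have hne : ∀ n i, orb a d c x n i ≠ 0 := by
    intro n i h
    obtain ⟨t, ht, -⟩ := hu3 i n
    rw [h, map_zero, zero_mul] at ht
    exact zero_ne_one ht
  refine ⟨x, densityInf N (orb a d c x) fun i => ?_⟩
  obtain ⟨M, hM1, hM2⟩ := recurrent (X := Fin N → ℤ_[p i]) (u i) (by
    intro n m
    rw [dist_eq_norm, dist_eq_norm]
    exact hu2 i n m)
  refine ⟨PadicAlgCl (p i), inferInstance, σ i, M, fun n => hne n i, ?_, hM1, fun m j hij => ?_⟩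
  · rw [tendsto_zero_iff_norm_tendsto_zero]
    refine squeeze_zero (fun n => norm_nonneg _) (fun n => ?_)
      (tendsto_pow_atTop_nhds_zero_of_lt_one (r := (1 / 2 : ℝ)) (by norm_num) (by norm_num))
    obtain ⟨t, ht, ht1⟩ := hu3 i n
    have e1 : (σ i (orb a d c x n i))⁻¹ = io (p i) t := inv_eq_of_mul_eq_one_right ht
    rw [e1, io_norm]
    exact ht1.le
  · have h1 := (tendsto_pi_nhds.1 (hM2 m)) j
    have h2 : Tendsto (fun k => io (p i) (u i (m + M k) j)) atTop (𝓝 (io (p i) (u i m j))) :=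
      (io_cont.tendsto _).comp h1
    rw [hu1 i m j hij]
    refine h2.congr fun k => ?_
    rw [hu1 i _ j hij]

end Pool.Agent.TH61.TRI
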