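import Pool.Agent.TH61.TRI.Cyc
import Pool.Agent.TH61.TRI.Dens
import Pool.Agent.TH61.PCF.Emb
import Pool.Agent.TH61.PCF.Dens

/-!
# Zariski dense orbits of triangular polynomial maps, general leading coefficients
-/

set_option autoImplicit false

namespace Pool.Agent.TH61.TRI

open Polynomial Filter Topology Pool.Agent.TH61.PCF

theorem triangular2 (N : ℕ) (d : Fin N → ℕ)
    (c : Fin N → ℕ → MvPolynomial (Fin N) (AlgebraicClosure ℚ)) (hd : ∀ i, 2 ≤ d i)
    (hl : ∀ i, c i (d i) ≠ 0) (hc : ∀ i k, ∀ j ∈ (c i k).vars, i < j) :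
    ∃ x : Fin N → AlgebraicClosure ℚ, ∀ R : MvPolynomial (Fin N) (AlgebraicClosure ℚ),
      (∀ n, MvPolynomial.eval (orb (fun _ => 0) (fun i => d i + 1) c x n) R = 0) → R = 0 := by
  classical
  obtain ⟨M₀, γ, hM0, hM, hγ1, hγ2, hγ3⟩ := exists_cycle hd hl hc
  have hMn : ∀ n s, γ (M₀ * n + s) = γ s := by
    intro n
    induction n with
    | zero => intro s; rw [mul_zero, zero_add]
    | succ n ih =>
      intro s
      have e1 : M₀ * (n + 1) + s = M₀ * n + (s + M₀) := by ring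
      rw [e1, ih, hM]
  have hmod : ∀ s, γ s = γ (s % M₀) := by
    intro s
    conv_lhs => rw [← Nat.div_add_mod s M₀]
    rw [hMn]
  -- the places
  let Zs : ℕ → Fin N → Finset (AlgebraicClosure ℚ) := fun s i =>
    {γ s i, ((derivative (gq d c i (γ s))).eval (γ s i))⁻¹,
      (MvPolynomial.eval (γ s) (c i (d i)))⁻¹}
  let Zi : Fin N → Finset (AlgebraicClosure ℚ) := fun i =>
    ((Finset.range M₀).biUnion fun s => Zs s i) ∪
      (Finset.range (d i + 1)).biUnion fun k => (c i k).support.image fun m => (c i k).coeff m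
  obtain ⟨p, hpinj, hpl⟩ := exists_places (Finset.univ.biUnion Zi)
  choose hp σ hσ using hpl
  have hint : ∀ (l : ℕ) (i : Fin N), ∀ z ∈ Zi i, ∃ x : ℤ_[p l], σ l z = io (p l) x :=
    fun l i z hz => hσ l z (Finset.mem_biUnion.2 ⟨i, Finset.mem_univ _, hz⟩)
  have hints : ∀ (l : ℕ) (s : ℕ) (i : Fin N), ∀ z ∈ Zs (s % M₀) i,
      ∃ x : ℤ_[p l], σ l z = io (p l) x :=
    fun l s i z hz => hint l i z (Finset.mem_union_left _ (Finset.mem_biUnion.2
      ⟨s % M₀, Finset.mem_range.2 (Nat.mod_lt _ hM0), hz⟩))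
  -- the starting point
  let Q : Fin N → ℕ := fun i => ∏ j ∈ Finset.univ.erase i, p (j : ℕ)
  have hp0 : ∀ i : ℕ, (p i : AlgebraicClosure ℚ) ≠ 0 := by
    intro i
    exact_mod_cast (hp i).out.ne_zero
  have hunit : ∀ (i : ℕ) (n : ℕ), ¬ p i ∣ n → IsUnit (n : ℤ_[p i]) := by
    intro i n hn
    rw [PadicInt.isUnit_iff]
    refine le_antisymm (PadicInt.norm_le_one _) (not_lt.1 fun hlt => hn ?_)
    have h1 : ‖((n : ℤ) : ℤ_[p i])‖ < 1 := by rwa [Int.cast_natCast]
    exact_mod_cast (PadicInt.norm_int_lt_one_iff_dvd _).1 h1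
  have hlt : ∀ (i : ℕ) (n : ℕ), p i ∣ n → ‖(n : ℤ_[p i])‖ < 1 := by
    intro i n hn
    have := (PadicInt.norm_int_lt_one_iff_dvd (p := p i) (n : ℤ)).2 (by exact_mod_cast hn)
    rwa [Int.cast_natCast] at this
  have hfrac : ∀ (i : ℕ) (n d : ℕ), p i ∣ n → ¬ p i ∣ d →
      ∃ x : ℤ_[p i], σ i ((n : AlgebraicClosure ℚ) / d) = io (p i) x ∧ ‖x‖ < 1 := by
    intro i n d hn hd
    have hu := hunit i d hd
    refine ⟨(n : ℤ_[p i]) * Ring.inverse (d : ℤ_[p i]), ?_, ?_⟩
    · have hd0 : σ i (d : AlgebraicClosure ℚ) ≠ 0 := by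
        rw [_root_.map_ne_zero]
        intro h0
        apply hd
        have : d = 0 := by exact_mod_cast h0
        rw [this]
        exact dvd_zero _
      rw [map_div₀, div_eq_iff hd0, map_natCast, map_natCast, ← map_natCast (io (p i)) d,
        ← map_mul, mul_assoc, Ring.inverse_mul_cancel _ hu, mul_one, map_natCast]
    · rw [norm_mul]
      exact (mul_le_of_le_one_right (norm_nonneg _) (PadicInt.norm_le_one _)).trans_lt (hlt i n hn)
  have hpij : ∀ i j : ℕ, i ≠ j → ¬ p i ∣ p j := by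
    intro i j hij h
    exact hij (hpinj ((Nat.prime_dvd_prime_iff_eq (hp i).out (hp j).out).1 h))
  have hpQ : ∀ i : Fin N, ¬ p (i : ℕ) ∣ Q i := by
    intro i h
    obtain ⟨j, hj, hd⟩ := ((hp (i : ℕ)).out.prime.dvd_finsetProd_iff _).1 h
    exact hpij i j (fun h => (Finset.ne_of_mem_erase hj) (Fin.ext h).symm) hd
  have hpQ' : ∀ i j : Fin N, i ≠ j → p (i : ℕ) ∣ Q j := by
    intro i j hij
    exact Finset.dvd_prod_of_mem _ (Finset.mem_erase.2 ⟨hij, Finset.mem_univ _⟩)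
  let x : Fin N → AlgebraicClosure ℚ := fun i =>
    γ 0 i + ((Q i : ℕ) : AlgebraicClosure ℚ) / (p (i : ℕ) : ℕ)
  have hplace : ∀ i : Fin N, ∃ u : ℕ → Fin N → ℤ_[p i],
      (∀ n j, i < j → σ i (orb (fun _ => 0) (fun i => d i + 1) c x (M₀ * n) j) =
        io (p i) (u n j)) ∧
      (∀ n m, ‖u (n + 1) - u (m + 1)‖ = ‖u n - u m‖) ∧
      ∀ n, ∃ t : ℤ_[p i], σ i (orb (fun _ => 0) (fun i => d i + 1) c x n i) * io (p i) t = 1 ∧
        ‖t‖ < (1 / 2 : ℝ) ^ n := by
    intro i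
    refine place2 (σ i) hd hc (fun s i => hγ1 s i) hM (fun j k hk m hm => ?_)
      (fun s j => ?_) hγ2 (fun s j => ?_) hγ3 (fun s j => ?_) i (fun j hij => ?_) ?_
    · exact hint i j _ (Finset.mem_union_right _ (Finset.mem_biUnion.2
        ⟨k, Finset.mem_range.2 hk, Finset.mem_image.2 ⟨m, hm, rfl⟩⟩))
    · rw [hmod s]
      exact hints i s j _ (by simp [Zs])
    · rw [hmod s]
      exact hints i s j _ (by simp [Zs])
    · rw [hmod s]
      exact hints i s j _ (by simp [Zs])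
    · obtain ⟨y, hy, hy1⟩ := hfrac i (Q j) (p j) (hpQ' i j hij.ne)
        (hpij i j fun h => hij.ne (Fin.ext h))
      refine ⟨y, ?_, hy1⟩
      rw [← hy]
      congr 1
      show γ 0 j + _ - γ 0 j = _
      ring
    · obtain ⟨g, hg⟩ := hints i 0 i (γ (0 % M₀) i) (by simp [Zs])
      rw [← hmod 0] at hg
      have hwu : IsUnit (g * (p (i : ℕ) : ℤ_[p i]) + (Q i : ℤ_[p i])) := by
        refine unit_of_near (hunit i (Q i) (hpQ i)) ?_
        rw [add_sub_cancel_right]
        exact (nmul _ _).trans_lt (hlt i (p i) (dvd_refl _))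
      refine ⟨(p (i : ℕ) : ℤ_[p i]) *
        Ring.inverse (g * (p (i : ℕ) : ℤ_[p i]) + (Q i : ℤ_[p i])), ?_, ?_⟩
      · have e1 : σ i (x i) * io (p i) (p (i : ℕ) : ℤ_[p i]) =
            io (p i) (g * (p (i : ℕ) : ℤ_[p i]) + (Q i : ℤ_[p i])) := by
          have hp0' : σ i (p (i : ℕ) : AlgebraicClosure ℚ) ≠ 0 := by
            rw [_root_.map_ne_zero]
            exact hp0 i
          show σ i (γ 0 i + _ / _) * _ = _
          rw [map_add, map_div₀, map_add, map_mul, hg, map_natCast (io (p i)),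
            map_natCast (io (p i)), ← map_natCast (σ i) (p i), ← map_natCast (σ i) (Q i)]
          field_simp
        rw [map_mul, ← mul_assoc, e1, ← map_mul, Ring.mul_inverse_cancel _ hwu, map_one]
      · rw [norm_mul]
        exact (mul_le_of_le_one_right (norm_nonneg _) (PadicInt.norm_le_one _)).trans_lt
          (hlt i (p i) (dvd_refl _))
  choose u hu1 hu2 hu3 using hplace
  have hne : ∀ n i, orb (fun _ => 0) (fun i => d i + 1) c x n i ≠ 0 := by
    intro n i h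
    obtain ⟨t, ht, -⟩ := hu3 i n
    rw [h, map_zero, zero_mul] at ht
    exact zero_ne_one ht
  refine ⟨x, fun R hR => densityInf N (fun n => orb (fun _ => 0) (fun i => d i + 1) c x (M₀ * n))
    (fun i => ?_) R fun n => hR _⟩
  obtain ⟨M, hM1, hM2⟩ := recurrent (X := Fin N → ℤ_[p i]) (u i) (by
    intro n m
    rw [dist_eq_norm, dist_eq_norm]
    exact hu2 i n m)
  refine ⟨PadicAlgCl (p i), inferInstance, σ i, M, fun n => hne _ i, ?_, hM1, fun m j hij => ?_⟩
  · rw [tendsto_zero_iff_norm_tendsto_zero]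
    refine squeeze_zero (fun n => norm_nonneg _) (fun n => ?_)
      (tendsto_pow_atTop_nhds_zero_of_lt_one (r := (1 / 2 : ℝ)) (by norm_num) (by norm_num))
    obtain ⟨t, ht, ht1⟩ := hu3 i (M₀ * n)
    have e1 : (σ i (orb (fun _ => 0) (fun i => d i + 1) c x (M₀ * n) i))⁻¹ = io (p i) t :=
      inv_eq_of_mul_eq_one_right ht
    rw [e1, io_norm]
    refine ht1.le.trans ?_
    exact pow_le_pow_of_le_one (by norm_num) (by norm_num) (Nat.le_mul_of_pos_left _ hM0)
  · have h1 := (tendsto_pi_nhds.1 (hM2 m)) j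
    have h2 : Tendsto (fun k => io (p i) (u i (m + M k) j)) atTop (𝓝 (io (p i) (u i m j))) :=
      (io_cont.tendsto _).comp h1
    rw [hu1 i m j hij]
    refine h2.congr fun k => ?_
    rw [hu1 i _ j hij]

end Pool.Agent.TH61.TRI
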