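import Mathlib

/-!
# Polynomials of degree at least two have infinitely many periodic points
-/

set_option autoImplicit false

namespace Pool.Agent.TH61.TRI

open Polynomial

variable {K : Type} [Field K]

theorem comp_iter_eval (g : K[X]) (n : ℕ) (x : K) :
    (g.comp^[n] X).eval x = (fun y => g.eval y)^[n] x := by
  rw [iterate_comp_eval, eval_X]

theorem deriv_iter {g : K[X]} {x : K} (hx : g.eval x = x) (n : ℕ) :
    (derivative (g.comp^[n] X)).eval x = ((derivative g).eval x) ^ n := by
  induction n with
  | zero => simp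
  | succ n ih =>
    have h1 : (g.comp^[n] X).eval x = x := by
      rw [comp_iter_eval]
      exact Function.iterate_fixed hx n
    rw [Function.iterate_succ_apply', derivative_comp, eval_mul, ih, eval_comp, h1, pow_succ]

theorem infinite_periodic [IsAlgClosed K] [CharZero K] (g : K[X]) (hg : 2 ≤ g.natDegree) :
    {x : K | ∃ n, 0 < n ∧ (fun y => g.eval y)^[n] x = x}.Infinite := by
  classical
  intro hfin
  set S := hfin.toFinset with hS
  have hmem : ∀ x, x ∈ S ↔ ∃ n, 0 < n ∧ (fun y => g.eval y)^[n] x = x := fun x =>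
    hfin.mem_toFinset
  have hn : ∀ x, ∃ n, 0 < n ∧ (x ∈ S → (fun y => g.eval y)^[n] x = x) := by
    intro x
    by_cases hx : x ∈ S
    · obtain ⟨n, hn, h⟩ := (hmem x).1 hx
      exact ⟨n, hn, fun _ => h⟩
    · exact ⟨1, one_pos, fun h => absurd h hx⟩
  choose n hn0 hn using hn
  set n₀ := ∏ x ∈ S, n x with hn₀
  have hn₀0 : 0 < n₀ := Finset.prod_pos fun x _ => hn0 x
  set G₀ := g.comp^[n₀] X with hG₀
  have hG₀x : ∀ x ∈ S, G₀.eval x = x := by
    intro x hx
    rw [hG₀, comp_iter_eval]
    have h1 : Function.IsPeriodicPt (fun y => g.eval y) (n x) x := hn x hx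
    exact h1.trans_dvd (Finset.dvd_prod_of_mem _ hx)
  set r := ∏ x ∈ S, (if orderOf ((derivative G₀).eval x) = 0 then 1 else
    orderOf ((derivative G₀).eval x)) with hr
  have hr0 : 0 < r := by
    refine Finset.prod_pos fun x _ => ?_
    split_ifs with h
    · exact one_pos
    · exact Nat.pos_of_ne_zero h
  set G := G₀.comp^[r] X with hG
  have hGx : ∀ x ∈ S, G.eval x = x := by
    intro x hx
    rw [hG, comp_iter_eval]
    exact Function.iterate_fixed (hG₀x x hx) r
  have hGd : ∀ x ∈ S, (derivative G).eval x ≠ -1 := by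
    intro x hx h
    rw [hG, deriv_iter (hG₀x x hx)] at h
    set l := (derivative G₀).eval x with hl
    by_cases ho : orderOf l = 0
    · have h2 : l ^ (r * 2) = 1 := by
        rw [pow_mul, h]
        norm_num
      have h3 := (orderOf_eq_zero_iff'.1 ho) (r * 2) (by omega)
      exact h3 h2
    · have h1 : orderOf l ∣ r := by
        have h2 := Finset.dvd_prod_of_mem (fun x => if orderOf ((derivative G₀).eval x) = 0 then 1
          else orderOf ((derivative G₀).eval x)) hx
        simp only [← hl, if_neg ho] at h2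
        exact h2
      rw [orderOf_dvd_iff_pow_eq_one.1 h1] at h
      have : (2 : K) = 0 := by linear_combination h
      exact two_ne_zero this
  have hGdeg : 2 ≤ G.natDegree := by
    rw [hG, natDegree_iterate_comp, natDegree_X, mul_one, hG₀, natDegree_iterate_comp, natDegree_X,
      mul_one]
    calc 2 ≤ g.natDegree := hg
      _ ≤ g.natDegree ^ n₀ := Nat.le_self_pow hn₀0.ne' _
      _ ≤ (g.natDegree ^ n₀) ^ r := Nat.le_self_pow hr0.ne' _
  set h := G - X with hh
  have hhd : h.natDegree = G.natDegree := by
    rw [hh]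
    apply natDegree_sub_eq_left_of_natDegree_lt
    rw [natDegree_X]
    omega
  obtain ⟨k, hk⟩ := binomExpansion (G.map C) X h
  have hmapc : ∀ (P Y : K[X]), (P.map C).eval Y = P.comp Y := fun P Y => by
    rw [eval_map]; rfl
  rw [derivative_map, hmapc, hmapc, hmapc, comp_X, comp_X] at hk
  have hXh : X + h = G := by rw [hh]; ring
  rw [hXh] at hk
  set W := 1 + derivative G + k * h with hW
  have hfac : G.comp G - X = h * W := by
    rw [hk, hW]
    rw [hh]
    ring
  have hcd : (G.comp G - X).natDegree = G.natDegree * G.natDegree := by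
    rw [natDegree_sub_eq_left_of_natDegree_lt, natDegree_comp]
    rw [natDegree_X, natDegree_comp]
    nlinarith
  have hprod0 : h * W ≠ 0 := by
    intro h0
    rw [hfac, h0, natDegree_zero] at hcd
    nlinarith
  have hh0 : h ≠ 0 := left_ne_zero_of_mul hprod0
  have hW0 : W ≠ 0 := right_ne_zero_of_mul hprod0
  have hWd : W.natDegree ≠ 0 := by
    intro h0
    rw [hfac, natDegree_mul hh0 hW0, h0, hhd, add_zero] at hcd
    nlinarith
  obtain ⟨x, hx⟩ := IsAlgClosed.exists_root W (by
    intro h0
    exact hWd (natDegree_eq_zero_iff_degree_le_zero.2 h0.le))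
  have hxG : G.eval (G.eval x) = x := by
    have h1 := congrArg (eval x) hfac
    rw [eval_mul, hx.eq_zero, mul_zero, eval_sub, eval_comp, eval_X, sub_eq_zero] at h1
    exact h1
  have hxS : x ∈ S := by
    rw [hmem]
    refine ⟨n₀ * r + n₀ * r, by positivity, ?_⟩
    have hGe : ∀ y, G.eval y = (fun y => g.eval y)^[n₀ * r] y := by
      intro y
      rw [hG, comp_iter_eval, Function.iterate_mul]
      congr 1
      funext z
      rw [hG₀, comp_iter_eval]
    rw [Function.iterate_add_apply, ← hGe, ← hGe]
    exact hxG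
  have h1 := hx.eq_zero
  rw [hW, eval_add, eval_add, eval_one, eval_mul, hh, eval_sub, eval_X, hGx x hxS, sub_self,
    mul_zero, add_zero] at h1
  exact hGd x hxS (by linear_combination h1)

end Pool.Agent.TH61.TRI
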