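import Pool.Agent.TH61.TRI.Loc

/-!
# Triangular polynomial maps at a good place
-/

set_option autoImplicit false

namespace Pool.Agent.TH61.TRI

open Polynomial Pool.Agent.TH61.PCF

section

variable {K : Type} [Field K] {p : ℕ} [Fact p.Prime] {N : ℕ} (σ : K →+* PadicAlgCl p)

theorem lift_mvn (Q : MvPolynomial (Fin N) K)
    (h : ∀ m ∈ Q.support, ∃ x : ℤ_[p], σ (Q.coeff m) = io p x) :
    ∃ R : MvPolynomial (Fin N) ℤ_[p], MvPolynomial.map (io p) R = MvPolynomial.map σ Q := by
  classical
  refine (MvPolynomial.mem_range_map_iff_coeffs_subset (f := io p)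
    (x := MvPolynomial.map σ Q)).2 ?_
  intro z hz
  obtain ⟨m, hm, rfl⟩ := MvPolynomial.mem_coeffs_iff.1 (Finset.mem_coe.1 hz)
  rw [MvPolynomial.coeff_map]
  have hm' : m ∈ Q.support := MvPolynomial.support_map_subset _ _ hm
  obtain ⟨x, hx⟩ := h m hm'
  exact ⟨x, hx.symm⟩

/-- the orbit over a field -/
noncomputable def orb {A : Type} [CommRing A] (a : Fin N → A) (d : Fin N → ℕ)
    (c : Fin N → ℕ → MvPolynomial (Fin N) A) (x : Fin N → A) : ℕ → Fin N → A
  | 0 => x
  | n + 1 => fun j => (gp a d c j (orb a d c x n)).eval (orb a d c x n j)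

theorem place {a : Fin N → K} {d : Fin N → ℕ} {c : Fin N → ℕ → MvPolynomial (Fin N) K}
    (hd : ∀ i, 2 ≤ d i) (hc : ∀ i k, ∀ j ∈ (c i k).vars, i < j) {γ : Fin N → K}
    (hγ : ∀ i, (gp a d c i γ).eval (γ i) = γ i)
    (ha : ∀ i, ∃ x : ℤ_[p], IsUnit x ∧ σ (a i) = io p x)
    (hci : ∀ i k, k < d i → ∀ m ∈ (c i k).support, ∃ x : ℤ_[p], σ ((c i k).coeff m) = io p x)
    (hγi : ∀ i, ∃ x : ℤ_[p], σ (γ i) = io p x)
    (hδ0 : ∀ i, (derivative (gp a d c i γ)).eval (γ i) ≠ 0)
    (hδ : ∀ i, ∃ x : ℤ_[p], σ ((derivative (gp a d c i γ)).eval (γ i))⁻¹ = io p x)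
    (i : Fin N) {x : Fin N → K}
    (hx : ∀ j, i < j → ∃ y : ℤ_[p], σ (x j - γ j) = io p y ∧ ‖y‖ < 1)
    (hxi : ∃ t : ℤ_[p], σ (x i) * io p t = 1 ∧ ‖t‖ < 1) :
    ∃ u : ℕ → Fin N → ℤ_[p], (∀ n j, i < j → σ (orb a d c x n j) = io p (u n j)) ∧
      (∀ n m, ‖u (n + 1) - u (m + 1)‖ = ‖u n - u m‖) ∧
      ∀ n, ∃ t : ℤ_[p], σ (orb a d c x n i) * io p t = 1 ∧ ‖t‖ < (1 / 2 : ℝ) ^ n := by
  classical
  choose a' ha'u ha' using ha
  have hc' : ∀ i k, ∃ R : MvPolynomial (Fin N) ℤ_[p], (k < d i →
      MvPolynomial.map (io p) R = MvPolynomial.map σ (c i k)) ∧ ∀ j ∈ R.vars, i < j := by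
    intro i k
    by_cases hk : k < d i
    · obtain ⟨R, hR⟩ := lift_mvn σ (c i k) (hci i k hk)
      refine ⟨R, fun _ => hR, fun j hj => ?_⟩
      apply hc i k
      rw [← MvPolynomial.vars_map_of_injective _ io_inj, hR,
        MvPolynomial.vars_map_of_injective _ σ.injective] at hj
      exact hj
    · exact ⟨0, fun h => absurd h hk, by simp⟩
  choose c' hcm hcv using hc'
  choose γ' hγ' using hγi
  -- comparison
  have hcmp : ∀ (j : Fin N) (z : Fin N → K) (y : Fin N → ℤ_[p]),
      (∀ l, j < l → σ (z l) = io p (y l)) → ∀ k, k < d j →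
      σ (MvPolynomial.eval z (c j k)) = io p (MvPolynomial.eval y (c' j k)) := by
    intro j z y hzy k hk
    have e1 : σ (MvPolynomial.eval z (c j k)) =
        MvPolynomial.eval (σ ∘ z) (MvPolynomial.map σ (c j k)) := by
      rw [MvPolynomial.eval_map, ← MvPolynomial.eval₂_comp]
    have e2 : io p (MvPolynomial.eval y (c' j k)) =
        MvPolynomial.eval (io p ∘ y) (MvPolynomial.map (io p) (c' j k)) := by
      rw [MvPolynomial.eval_map, ← MvPolynomial.eval₂_comp]
    rw [e1, e2, hcm j k hk]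
    apply eval_congr_vars
    intro l hl
    rw [MvPolynomial.vars_map_of_injective _ σ.injective] at hl
    exact hzy l (hc j k l hl)
  have hgp : ∀ (j : Fin N) (z : Fin N → K) (y : Fin N → ℤ_[p]),
      (∀ l, j < l → σ (z l) = io p (y l)) →
      (gp a d c j z).map σ = (gp a' d c' j y).map (io p) := by
    intro j z y hzy
    unfold gp
    simp only [Polynomial.map_add, Polynomial.map_mul, map_C, Polynomial.map_pow, map_X,
      Polynomial.map_sum]
    rw [ha' j]
    congr 1
    refine Finset.sum_congr rfl fun k hk => ?_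
    rw [hcmp j z y hzy k (Finset.mem_range.1 hk)]
  have hgpe : ∀ (j : Fin N) (z : Fin N → K) (y : Fin N → ℤ_[p]),
      (∀ l, j < l → σ (z l) = io p (y l)) → σ (z j) = io p (y j) →
      σ ((gp a d c j z).eval (z j)) = io p ((gp a' d c' j y).eval (y j)) ∧
      σ ((derivative (gp a d c j z)).eval (z j)) =
        io p ((derivative (gp a' d c' j y)).eval (y j)) := by
    intro j z y hzy hj
    constructor
    · rw [← eval₂_at_apply, ← eval₂_at_apply, ← eval_map, ← eval_map, hgp j z y hzy, hj]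
    · rw [← eval₂_at_apply, ← eval₂_at_apply, ← eval_map, ← eval_map, ← derivative_map,
        ← derivative_map, hgp j z y hzy, hj]
  have hγfix : ∀ j, (gp a' d c' j γ').eval (γ' j) = γ' j := by
    intro j
    apply io_inj (p := p)
    rw [← (hgpe j γ γ' (fun l _ => hγ' l) (hγ' j)).1, hγ, hγ']
  have hγu : ∀ j, IsUnit ((derivative (gp a' d c' j γ')).eval (γ' j)) := by
    intro j
    exact lift_unit σ (hδ0 j) (hgpe j γ γ' (fun l _ => hγ' l) (hγ' j)).2 (hδ j)
  -- the orbit over the integers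
  choose y₀ hy₀ using fun j => (show ∃ y : ℤ_[p], i < j → (σ (x j) = io p y ∧ ‖y - γ' j‖ < 1) from by
    by_cases hj : i < j
    · obtain ⟨y, hy, hy1⟩ := hx j hj
      refine ⟨y + γ' j, fun _ => ⟨?_, by rwa [add_sub_cancel_right]⟩⟩
      rw [map_add, ← hy, ← hγ' j, map_sub]
      ring
    · exact ⟨0, fun h => absurd h hj⟩)
  set Y := orb a' d c' y₀ with hY
  have hYs : ∀ n, Y (n + 1) = step a' d c' (Y n) := fun n => rfl
  have hXY : ∀ n j, i < j → σ (orb a d c x n j) = io p (Y n j) := by
    intro n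
    induction n with
    | zero => intro j hj; exact (hy₀ j hj).1
    | succ n ih =>
      intro j hj
      exact (hgpe j _ _ (fun l hl => ih l (hj.trans hl)) (ih j hj)).1
  have hYγ : ∀ n, ‖tr i (Y n) - tr i γ'‖ < 1 := by
    intro n
    induction n with
    | zero =>
      have : ∀ j, ‖(tr i (Y 0) - tr i γ') j‖ < 1 := by
        intro j
        rw [Pi.sub_apply]
        by_cases hj : i < j
        · rw [tr_of hj, tr_of hj]
          exact (hy₀ j hj).2
        · rw [tr_not hj, tr_not hj, sub_self, norm_zero]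
          exact one_pos
      exact (pi_norm_lt_iff one_pos).2 this
    | succ n ih =>
      have h1 : tr i (step a' d c' γ') = tr i γ' := by
        funext j
        by_cases hj : i < j
        · rw [tr_of hj, tr_of hj]
          exact hγfix j
        · rw [tr_not hj, tr_not hj]
      rw [hYs, ← h1, iso_step hcv i (fun j _ => hγu j) ih (by simp)]
      exact ih
  refine ⟨fun n => tr i (Y n), fun n j hj => ?_, fun n m => ?_, ?_⟩
  · show σ (orb a d c x n j) = io p (tr i (Y n) j)
    rw [tr_of hj]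
    exact hXY n j hj
  · show ‖tr i (Y (n + 1)) - tr i (Y (m + 1))‖ = _
    rw [hYs, hYs]
    exact iso_step hcv i (fun j _ => hγu j) (hYγ n) (hYγ m)
  · have hhalf : ∀ t : ℤ_[p], ‖t‖ < 1 → ‖t‖ ≤ 1 / 2 := by
      intro t ht
      have h2 : (2 : ℝ) ≤ p := by exact_mod_cast (Fact.out : p.Prime).two_le
      have h3 : ‖t‖ ≤ (p : ℝ)⁻¹ := by
        have := (PadicInt.norm_lt_one_iff_dvd t).1 ht
        obtain ⟨s, rfl⟩ := this
        rw [norm_mul, PadicInt.norm_p]
        exact mul_le_of_le_one_right (by positivity) (PadicInt.norm_le_one _)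
      refine h3.trans ?_
      rw [inv_le_comm₀ (by linarith) (by norm_num)]
      norm_num
      exact_mod_cast h2
    intro n
    induction n with
    | zero =>
      obtain ⟨t, ht, ht1⟩ := hxi
      exact ⟨t, ht, by rw [pow_zero]; exact ht1⟩
    | succ n ih =>
      obtain ⟨t, ht, htn⟩ := ih
      have ht1 : ‖t‖ < 1 := htn.trans_le (pow_le_one₀ (by norm_num) (by norm_num))
      set w : ℤ_[p] := a' i + ∑ k ∈ Finset.range (d i),
        MvPolynomial.eval (Y n) (c' i k) * t ^ (d i - k) with hw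
      have hwu : IsUnit w := by
        refine unit_of_near (ha'u i) ?_
        rw [hw, add_sub_cancel_left]
        refine lt_of_le_of_lt ?_ ht1
        refine Finset.sum_induction _ (fun x => ‖x‖ ≤ ‖t‖) (fun x y => nadd)
          (by simp) fun k hk => ?_
        refine (nmul _ _).trans ?_
        have h1 := Finset.mem_range.1 hk
        obtain ⟨e, he⟩ : ∃ e, d i - k = e + 1 := ⟨d i - k - 1, by omega⟩
        rw [he, pow_succ]
        exact nmul _ _
      have hstep : σ (orb a d c x (n + 1) i) * io p (t ^ d i) = io p w := by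
        have e1 : orb a d c x (n + 1) i = (gp a d c i (orb a d c x n)).eval (orb a d c x n i) := rfl
        set X₀ := orb a d c x n i with hX₀
        have e2 : (gp a d c i (orb a d c x n)).eval X₀ = a i * X₀ ^ d i +
            ∑ k ∈ Finset.range (d i), MvPolynomial.eval (orb a d c x n) (c i k) * X₀ ^ k := by
          unfold gp
          rw [eval_add, eval_mul, eval_C, eval_pow, eval_X, eval_finsetSum]
          congr 1
          refine Finset.sum_congr rfl fun k _ => ?_
          rw [eval_mul, eval_C, eval_pow, eval_X]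
        rw [e1, e2, map_add, map_sum, hw, map_add, map_sum, add_mul, Finset.sum_mul]
        congr 1
        · rw [map_mul, map_pow, map_pow, ha' i, mul_assoc, ← mul_pow, ht, one_pow, mul_one]
        · refine Finset.sum_congr rfl fun k hk => ?_
          have h1 := Finset.mem_range.1 hk
          rw [map_mul, map_mul, hcmp i _ (Y n) (fun l hl => hXY n l hl) k h1, map_pow, map_pow,
            map_pow, mul_assoc]
          congr 1
          have e3 : d i = k + (d i - k) := by omega
          conv_lhs => rw [e3, pow_add, ← mul_assoc, ← mul_pow, ht, one_pow, one_mul]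
      refine ⟨t ^ d i * Ring.inverse w, ?_, ?_⟩
      · rw [map_mul, ← mul_assoc, hstep, ← map_mul, Ring.mul_inverse_cancel _ hwu, map_one]
      · have h1 : ‖t ^ d i * Ring.inverse w‖ ≤ ‖t‖ * ‖t‖ := by
          obtain ⟨e, he⟩ : ∃ e, d i = e + 2 := ⟨d i - 2, by have := hd i; omega⟩
          rw [norm_mul, he, pow_add, norm_mul, sq, norm_mul]
          calc ‖t ^ e‖ * (‖t‖ * ‖t‖) * ‖Ring.inverse w‖ ≤ 1 * (‖t‖ * ‖t‖) * 1 := by
                gcongr
                · exact PadicInt.norm_le_one _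
                · exact PadicInt.norm_le_one _
            _ = _ := by ring
        refine lt_of_le_of_lt h1 ?_
        rw [pow_succ]
        have h2 := hhalf t ht1
        have h3 : (0 : ℝ) < (1 / 2) ^ n := by positivity
        calc ‖t‖ * ‖t‖ ≤ ‖t‖ * (1 / 2) := by gcongr
          _ < (1 / 2) ^ n * (1 / 2) := by
              apply mul_lt_mul_of_pos_right htn (by norm_num)

end

end Pool.Agent.TH61.TRI
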